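import Pool.Agent.P.MP_2e9c36_lc.YCard

set_option autoImplicit false
set_option linter.unusedSectionVars false
set_option synthInstance.maxSize 4000

/-! Types whose elements are coded in a model of ZFC; definable maps between them. -/

open Pool.Agent.P.MP_5f3b23_lc.Zf

namespace Pool.Agent.P.MP_af1204_lc.Inn

/-- a model of ZFC -/
class Md where
  /-- the universe -/
  MM : Type
  [zm : Zm MM]

attribute [instance_reducible] Md.zm
attribute [instance] Md.zm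

export Md (MM)

variable [Md]

/-- a type coded by elements of the model -/
class MC (T : Type) where
  /-- the code -/
  enc : T → MM
  inj : ∀ a b, enc a = enc b → a = b

export MC (enc)

/-- a type coded by the elements of a set of the model -/
class MT (T : Type) extends MC T where
  ex : ∃ a : MM, ∀ y, y ∈ a ↔ ∃ t : T, enc t = y

theorem enc_inj {T : Type} [MC T] {a b : T} : enc a = enc b ↔ a = b :=
  ⟨MC.inj a b, fun h => by rw [h]⟩

/-- the set of codes -/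
noncomputable def car (T : Type) [MT T] : MM := (MT.ex (T := T)).choose

theorem mem_car {T : Type} [MT T] {y : MM} : y ∈ car T ↔ ∃ t : T, enc t = y :=
  (MT.ex (T := T)).choose_spec y

theorem enc_mem {T : Type} [MT T] (t : T) : enc t ∈ car T := mem_car.2 ⟨t, rfl⟩

/-- definable maps -/
class DD {Γ : Type} [MC Γ] {T : Γ → Type} [∀ g, MC (T g)] (f : ∀ g, T g) : Prop where
  out : ∃ F : MM → MM, Fn1 F ∧ ∀ g, F (enc g) = enc (f g)

/-- definable predicates -/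
class DP {Γ : Type} [MC Γ] (P : Γ → Prop) : Prop where
  out : ∃ Q : MM → Prop, D1 Q ∧ ∀ g, Q (enc g) ↔ P g

/-- definable families of types -/
class UF {Γ : Type} [MC Γ] (T : Γ → Type) [∀ g, MC (T g)] : Prop where
  out : ∃ R : MM → MM → Prop, D2 R ∧ ∀ g y, R (enc g) y ↔ ∃ t : T g, enc t = y

/-- a context extended by a variable -/
structure Cx {Γ : Type} [MC Γ] (T : Γ → Type) [∀ g, MC (T g)] : Type where
  /-- the old variables -/
  fst : Γ
  /-- the new variable -/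
  snd : T fst

/-- a context extended by a hypothesis -/
structure Cp {Γ : Type} [MC Γ] (A : Γ → Prop) : Type where
  /-- the old variables -/
  fst : Γ
  snd : A fst

/-- a context with one variable -/
structure Cw (Γ : Type) [MC Γ] : Type where
  /-- the variable -/
  fst : Γ
  snd : True

instance mcCw (Γ : Type) [MC Γ] : MC (Cw Γ) where
  enc p := enc p.1
  inj := by
    rintro ⟨g, _⟩ ⟨g', _⟩ h
    obtain rfl : g = g' := MC.inj _ _ h
    rfl

/-- types that are not contexts -/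
class Root (Γ : Type) : Prop where

instance (Γ : Type) [MT Γ] : Root Γ := ⟨⟩

instance : Root MM := ⟨⟩

/-- equal codings -/
class Same {Γ : Type} {T : Γ → Type} (i j : ∀ g, MC (T g)) : Prop where
  eq : i = j

instance {Γ : Type} {T : Γ → Type} (i : ∀ g, MC (T g)) : Same i i := ⟨rfl⟩

/-- delays the unification of a coding -/
@[reducible] def dly {α : Type} (a : α) : α := a

instance mcM : MC MM := ⟨id, fun _ _ h => h⟩

noncomputable instance mcCx {Γ : Type} [MC Γ] (T : Γ → Type) [∀ g, MC (T g)] : MC (Cx T) where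
  enc p := op (enc p.1) (enc p.2)
  inj := by
    rintro ⟨g, t⟩ ⟨g', t'⟩ h
    obtain ⟨h1, h2⟩ := op_inj h
    obtain rfl : g = g' := MC.inj _ _ h1
    obtain rfl : t = t' := MC.inj _ _ h2
    rfl

instance mcCp {Γ : Type} [MC Γ] (A : Γ → Prop) : MC (Cp A) where
  enc p := enc p.1
  inj := by
    rintro ⟨g, t⟩ ⟨g', t'⟩ h
    obtain rfl : g = g' := MC.inj _ _ h
    rfl

theorem mkF (F : MM → MM) [h : Tm fun v => F (v 0)] : Fn1 F := ⟨h⟩

theorem mkP (Q : MM → Prop) [h : Df fun v => Q (v 0)] : D1 Q := ⟨h⟩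

theorem mkR (R : MM → MM → Prop) [h : Df fun v => R (v 0) (v 1)] : D2 R := ⟨h⟩

section rules
variable {Γ : Type} [MC Γ]

theorem DD.of {T : Γ → Type} [∀ g, MC (T g)] {f : ∀ g, T g} (F : MM → MM)
    [h : Tm fun v => F (v 0)] (e : ∀ g, F (enc g) = enc (f g)) : DD f := ⟨F, ⟨h⟩, e⟩

theorem DP.of {P : Γ → Prop} (Q : MM → Prop) [h : Df fun v => Q (v 0)]
    (e : ∀ g, Q (enc g) ↔ P g) : DP P := ⟨Q, ⟨h⟩, e⟩

theorem UF.of {T : Γ → Type} [∀ g, MC (T g)] (R : MM → MM → Prop)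
    [h : Df fun v => R (v 0) (v 1)] (e : ∀ g y, R (enc g) y ↔ ∃ t : T g, enc t = y) : UF T :=
  ⟨R, ⟨h⟩, e⟩

theorem DP.congr {P Q : Γ → Prop} (h : DP P) (e : ∀ g, Q g ↔ P g) : DP Q :=
  (funext fun g => propext (e g) : Q = P) ▸ h

theorem DD.congr {T : Γ → Type} [∀ g, MC (T g)] {f f' : ∀ g, T g} (h : DD f)
    (e : ∀ g, f' g = f g) : DD f' := (funext e : f' = f) ▸ h

theorem DD.of_enc {T T' : Γ → Type} [∀ g, MC (T g)] [∀ g, MC (T' g)] {f : ∀ g, T g}
    {f' : ∀ g, T' g} (h : DD f) (e : ∀ g, enc (f g) = enc (f' g)) : DD f' :=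
  let ⟨F, h1, h2⟩ := h.out; ⟨F, h1, fun g => (h2 g).trans (e g)⟩

theorem DD.comp {Δ : Type} [MC Δ] {T : Δ → Type} [∀ g, MC (T g)] {f : ∀ g, T g} (h : DD f)
    (a : Γ → Δ) [ha : DD a] : DD fun g => f (a g) := by
  obtain ⟨F, _, h2⟩ := h.out
  obtain ⟨A, _, h4⟩ := ha.out
  exact DD.of (fun x => F (A x)) fun g => by rw [h4, h2]

theorem DP.comp {Δ : Type} [MC Δ] {P : Δ → Prop} (h : DP P) (a : Γ → Δ) [ha : DD a] :
    DP fun g => P (a g) := by
  obtain ⟨F, _, h2⟩ := h.out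
  obtain ⟨A, _, h4⟩ := ha.out
  exact DP.of (fun x => F (A x)) fun g => by rw [h4, h2]

theorem UF.comp {Δ : Type} [MC Δ] {T : Δ → Type} [∀ g, MC (T g)] (h : UF T) (a : Γ → Δ)
    [ha : DD a] : UF fun g => T (a g) := by
  obtain ⟨R, _, h2⟩ := h.out
  obtain ⟨A, _, h4⟩ := ha.out
  exact UF.of (fun x y => R (A x) y) fun g y => by rw [h4, h2]

theorem UF.of_car {T : Γ → Type} [∀ g, MT (T g)] (F : MM → MM) [Fn1 F]
    (h : ∀ g, F (enc g) = car (T g)) : UF T :=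
  UF.of (fun x y => y ∈ F x) fun g y => by rw [h, mem_car]

theorem UF.car {T : Γ → Type} [∀ g, MT (T g)] (h : UF T) :
    ∃ F : MM → MM, Fn1 F ∧ ∀ g, F (enc g) = car (T g) := by
  obtain ⟨R, _, h2⟩ := h.out
  exact ⟨fun x => the fun a => ∀ y, y ∈ a ↔ R x y, mkF _, fun g =>
    the_eq (fun y => by rw [h2, mem_car]) fun z hz => ext fun y => by rw [hz, h2, mem_car]⟩

instance dd_car (T : Γ → Type) [∀ g, MT (T g)] [h : UF T] : DD fun g => car (T g) := ⟨h.car⟩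

instance dd_enc {T : Γ → Type} [∀ g, MC (T g)] (a : ∀ g, T g) [h : DD a] :
    DD fun g => enc (a g) := ⟨h.out⟩

instance dd_cxmk {A : Type} [MC A] {T : A → Type} [∀ a, MC (T a)] (a : Γ → A) (b : ∀ g, T (a g))
    [ha : DD a] [hb : DD b] : DD fun g => Cx.mk (T := T) (a g) (b g) := by
  obtain ⟨A, _, h1⟩ := ha.out
  obtain ⟨B, _, h2⟩ := hb.out
  exact DD.of (fun x => op (A x) (B x)) fun g => by rw [h1, h2]; rfl

instance dd_cpmk {A : Type} [MC A] {T : A → Prop} (a : Γ → A) (b : ∀ g, T (a g))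
    [ha : DD a] : DD fun g => Cp.mk (A := T) (a g) (b g) := ha.of_enc fun _ => rfl

instance dd_cwmk {A : Type} [MC A] (a : Γ → A) (b : Γ → True) [ha : DD a] :
    DD fun g => Cw.mk (a g) (b g) := ha.of_enc fun _ => rfl

/-- a map whose graph is definable -/
theorem DD.of_spec {T : Γ → Type} [∀ g, MC (T g)] [hT : UF T] {f : ∀ g, T g}
    (R : ∀ g, T g → Prop) [hR : DP fun p : Cx T => R p.1 p.2] (h : ∀ g t, R g t ↔ t = f g) :
    DD f := by
  obtain ⟨S, _, h1⟩ := hT.out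
  obtain ⟨Q, _, h2⟩ := hR.out
  refine ⟨fun x => the fun y => S x y ∧ Q (op x y), mkF _, fun g => the_eq
    ⟨(h1 _ _).2 ⟨_, rfl⟩, (h2 ⟨g, f g⟩).2 ((h _ _).2 rfl)⟩ fun z hz => ?_⟩
  obtain ⟨t, rfl⟩ := (h1 _ _).1 hz.1
  exact congrArg enc ((h g t).1 ((h2 ⟨g, t⟩).1 hz.2))

instance dp_not (P : Γ → Prop) [h : DP P] : DP fun g => ¬ P g := by
  obtain ⟨Q, _, h1⟩ := h.out
  exact DP.of (fun x => ¬ Q x) fun g => by rw [h1]

instance dp_or (P P' : Γ → Prop) [h : DP P] [h' : DP P'] : DP fun g => P g ∨ P' g := by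
  obtain ⟨Q, _, h1⟩ := h.out
  obtain ⟨Q', _, h2⟩ := h'.out
  exact DP.of (fun x => Q x ∨ Q' x) fun g => by rw [h1, h2]

instance dp_iff (P P' : Γ → Prop) [h : DP P] [h' : DP P'] : DP fun g => P g ↔ P' g := by
  obtain ⟨Q, _, h1⟩ := h.out
  obtain ⟨Q', _, h2⟩ := h'.out
  exact DP.of (fun x => Q x ↔ Q' x) fun g => by rw [h1, h2]

instance dp_dimp (A : Γ → Prop) (B : ∀ g, A g → Prop) [h : DP A]
    [h' : DP fun p : Cp A => B p.1 p.2] : DP fun g => ∀ a : A g, B g a := by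
  obtain ⟨Q, _, h1⟩ := h.out
  obtain ⟨Q', _, h2⟩ := h'.out
  exact ⟨fun x => Q x → Q' x, mkP _, fun g => ⟨fun k a => (h2 ⟨g, a⟩).1 (k ((h1 g).2 a)),
    fun k a => (h2 ⟨g, (h1 g).1 a⟩).2 (k _)⟩⟩

instance dp_dex (A : Γ → Prop) (B : ∀ g, A g → Prop) [h : DP A]
    [h' : DP fun p : Cp A => B p.1 p.2] : DP fun g => ∃ a : A g, B g a := by
  obtain ⟨Q, _, h1⟩ := h.out
  obtain ⟨Q', _, h2⟩ := h'.out
  exact ⟨fun x => Q x ∧ Q' x, mkP _, fun g => ⟨fun k => ⟨(h1 g).1 k.1, (h2 ⟨g, (h1 g).1 k.1⟩).1 k.2⟩,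
    fun ⟨a, k⟩ => ⟨(h1 g).2 a, (h2 ⟨g, a⟩).2 k⟩⟩⟩

instance dp_ex {T : Γ → Type} [∀ g, MC (T g)] [hT : UF T] (P : ∀ g, T g → Prop)
    [h : DP fun p : Cx T => P p.1 p.2] : DP fun g => ∃ x : T g, P g x := by
  obtain ⟨S, _, h1⟩ := hT.out
  obtain ⟨Q, _, h2⟩ := h.out
  refine ⟨fun x => ∃ y, S x y ∧ Q (op x y), mkP _, fun g => ⟨?_, fun ⟨t, ht⟩ =>
    ⟨enc t, (h1 _ _).2 ⟨t, rfl⟩, (h2 ⟨g, t⟩).2 ht⟩⟩⟩
  rintro ⟨y, k1, k2⟩
  obtain ⟨t, rfl⟩ := (h1 _ _).1 k1
  exact ⟨t, (h2 ⟨g, t⟩).1 k2⟩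

instance dp_all {T : Γ → Type} [∀ g, MC (T g)] [hT : UF T] (P : ∀ g, T g → Prop)
    [h : DP fun p : Cx T => P p.1 p.2] : DP fun g => ∀ x : T g, P g x :=
  (inferInstance : DP fun g => ¬ ∃ x : T g, ¬ P g x).congr fun g => by simp

instance dp_imp (P P' : Γ → Prop) [h : DP P] [h' : DP P'] : DP fun g => P g → P' g := by
  obtain ⟨Q, _, h1⟩ := h.out
  obtain ⟨Q', _, h2⟩ := h'.out
  exact DP.of (fun x => Q x → Q' x) fun g => by rw [h1, h2]

instance dp_and (P P' : Γ → Prop) [h : DP P] [h' : DP P'] : DP fun g => P g ∧ P' g := by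
  obtain ⟨Q, _, h1⟩ := h.out
  obtain ⟨Q', _, h2⟩ := h'.out
  exact DP.of (fun x => Q x ∧ Q' x) fun g => by rw [h1, h2]

instance dp_eq {T : Γ → Type} [∀ g, MC (T g)] (a b : ∀ g, T g) [ha : DD a] [hb : DD b] :
    DP fun g => a g = b g := by
  obtain ⟨A, _, h1⟩ := ha.out
  obtain ⟨B, _, h2⟩ := hb.out
  exact DP.of (fun x => A x = B x) fun g => by rw [h1, h2, enc_inj]

instance dp_ne {T : Γ → Type} [∀ g, MC (T g)] (a b : ∀ g, T g) [ha : DD a] [hb : DD b] :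
    DP fun g => a g ≠ b g := dp_not _

instance dp_memM (a b : Γ → MM) [ha : DD a] [hb : DD b] : DP fun g => a g ∈ b g := by
  obtain ⟨A, _, h1⟩ := ha.out
  obtain ⟨B, _, h2⟩ := hb.out
  exact DP.of (fun x => A x ∈ B x) fun g => by rw [h1, h2]; rfl

instance dd_ite {T : Γ → Type} [∀ g, MC (T g)] (c : Γ → Prop) {d : ∀ g, Decidable (c g)}
    (a b : ∀ g, T g) [hc : DP c] [ha : DD a] [hb : DD b] :
    DD fun g => @ite _ (c g) (d g) (a g) (b g) := by
  obtain ⟨Q, _, h0⟩ := hc.out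
  obtain ⟨A, _, h1⟩ := ha.out
  obtain ⟨B, _, h2⟩ := hb.out
  refine ⟨fun x => cnd (Q x) (A x) (B x), mkF _, fun g => ?_⟩
  by_cases h : c g
  · rw [if_pos h, ← h1]; exact cnd_pos ((h0 g).2 h)
  · rw [if_neg h, ← h2]; exact cnd_neg fun k => h ((h0 g).1 k)

instance dd_dite {T : Γ → Type} [∀ g, MC (T g)] (c : Γ → Prop) {d : ∀ g, Decidable (c g)}
    (a : ∀ g, c g → T g) (b : ∀ g, ¬ c g → T g) [hc : DP c]
    [ha : DD fun p : Cp c => a p.1 p.2] [hb : DD fun p : Cp fun g => ¬ c g => b p.1 p.2] :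
    DD fun g => @dite _ (c g) (d g) (a g) (b g) := by
  obtain ⟨Q, _, h0⟩ := hc.out
  obtain ⟨A, _, h1⟩ := ha.out
  obtain ⟨B, _, h2⟩ := hb.out
  refine ⟨fun x => cnd (Q x) (A x) (B x), mkF _, fun g => ?_⟩
  by_cases h : c g
  · rw [dif_pos h]; exact (cnd_pos ((h0 g).2 h)).trans (h1 ⟨g, h⟩)
  · rw [dif_neg h]; exact (cnd_neg fun k => h ((h0 g).1 k)).trans (h2 ⟨g, h⟩)

instance dp_ite (c : Γ → Prop) {d : ∀ g, Decidable (c g)} (a b : Γ → Prop) [DP c] [DP a] [DP b] :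
    DP fun g => @ite _ (c g) (d g) (a g) (b g) :=
  (inferInstance : DP fun g => (c g → a g) ∧ (¬ c g → b g)).congr fun g => by
    by_cases h : c g <;> simp [h]

instance (priority := 2000) dd_cpfst {A : Type} [MC A] {T : A → Prop} (t : Γ → Cp T) [h : DD t] :
    DD fun g => (t g).1 := h.of_enc fun _ => rfl

instance (priority := 2001) dd_id : DD fun g : Γ => g := ⟨fun x => x, mkF _, fun _ => rfl⟩

instance (priority := 2002) dd_cxfst {A : Type} [MC A] {T : A → Type} [∀ a, MC (T a)]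
    (t : Γ → Cx T) [h : DD t] : DD fun g => (t g).1 := by
  obtain ⟨F, _, h1⟩ := h.out
  exact DD.of (fun x => fst (F x)) fun g => by rw [h1]; exact fst_op _ _

instance (priority := 2003) dd_cxsnd {A : Type} [MC A] {T : A → Type} [∀ a, MC (T a)]
    (t : Γ → Cx T) [h : DD t] : DD fun g => (t g).2 := by
  obtain ⟨F, _, h1⟩ := h.out
  exact DD.of (fun x => snd (F x)) fun g => by rw [h1]; exact snd_op _ _

instance dd_enc0 : DD (enc : Γ → MM) := dd_enc fun g => g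

instance dd_cwfst0 : DD (Cw.fst (Γ := Γ)) := ⟨fun x => x, mkF _, fun _ => rfl⟩

instance (priority := 1999) dd_cwfst {A : Type} [MC A] (t : Γ → Cw A) [h : DD t] :
    DD fun g => (t g).1 := h.of_enc fun _ => rfl

instance dd_cpfst0 {T : Γ → Prop} : DD (Cp.fst (A := T)) := ⟨fun x => x, mkF _, fun _ => rfl⟩

instance dd_cxfst0 {T : Γ → Type} [∀ a, MC (T a)] : DD (Cx.fst (T := T)) := dd_cxfst fun g => g

instance dd_cxsnd0 {T : Γ → Type} [∀ a, MC (T a)] : DD (Cx.snd (T := T)) := dd_cxsnd fun g => g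

instance (priority := 2900) dd_root [Root Γ] {T : Γ → Type} [∀ g, MC (T g)] (f : ∀ g, T g)
    [h : DD fun p : Cw Γ => f p.1] : DD f :=
  let ⟨F, h1, h2⟩ := h.out; ⟨F, h1, fun g => h2 ⟨g, trivial⟩⟩

instance (priority := 2900) dp_root [Root Γ] (P : Γ → Prop) [h : DP fun p : Cw Γ => P p.1] :
    DP P := let ⟨F, h1, h2⟩ := h.out; ⟨F, h1, fun g => h2 ⟨g, trivial⟩⟩

instance (priority := 2900) uf_root [Root Γ] (T : Γ → Type) [∀ g, MC (T g)]
    [h : UF fun p : Cw Γ => T p.1] : UF T :=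
  let ⟨F, h1, h2⟩ := h.out; ⟨F, h1, fun g => h2 ⟨g, trivial⟩⟩

instance (priority := 14) dd_v1 {A : Type} [MC A] {T : A → Type} [i : ∀ a, MC (T a)]
    (F : ∀ a, T a) (a : Γ → A) {j : ∀ g, MC (T (a g))} [h : DD F] [DD a]
    [e : Same (fun g => i (a g)) j] : @DD _ Γ _ (fun g => T (a g)) (dly j) fun g => F (a g) :=
  e.eq ▸ h.comp a

instance (priority := 14) dp_v1 {A : Type} [MC A] (F : A → Prop) (a : Γ → A) [h : DP F] [DD a] :
    DP fun g => F (a g) := h.comp a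

instance (priority := 14) uf_v1 {A : Type} [MC A] (T : A → Type) [i : ∀ a, MC (T a)] (a : Γ → A)
    {j : ∀ g, MC (T (a g))} [h : UF T] [DD a] [e : Same (fun g => i (a g)) j] :
    @UF _ Γ _ (fun g => T (a g)) j := e.eq ▸ h.comp a

instance (priority := 3000) dd_const {T : Type} [MC T] (c : T) : DD fun _ : Γ => c :=
  ⟨fun _ => enc c, mkF _, fun _ => rfl⟩

instance (priority := 3000) dp_const (c : Prop) : DP fun _ : Γ => c := by
  by_cases h : c
  · exact ⟨fun x => x = x, mkP _, fun _ => by simp [h]⟩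
  · exact ⟨fun x => ¬ x = x, mkP _, fun _ => by simp [h]⟩

instance (priority := 3000) uf_const (T : Type) [MT T] : UF fun _ : Γ => T :=
  UF.of (fun _ y => y ∈ car T) fun _ _ => mem_car

instance uf_M : UF fun _ : Γ => MM := 
  UF.of (fun _ y => y = y) fun _ y => ⟨fun _ => ⟨y, rfl⟩, fun _ => rfl⟩

end rules

end Pool.Agent.P.MP_af1204_lc.Inn
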