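import Pool.Agent.P.MP_0d6be8_lc.Inn.TOrd

set_option autoImplicit false
set_option linter.unusedSectionVars false
set_option synthInstance.maxSize 4000

/-! Ordinals and natural numbers of the model; dependent functions. -/

noncomputable section

open Pool.Agent.P.MP_5f3b23_lc.Zf

namespace Pool.Agent.P.MP_af1204_lc.Inn

variable [Md]

/-- types whose codes form a class -/
class CL (X : Type) [MC X] : Prop where
  out : UF fun _ : MM => X

instance (priority := 2950) uf_cl {Γ : Type} [MC Γ] (X : Type) [MC X] [h : CL X] :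
    UF fun _ : Γ => X := h.out.comp fun _ => emp

instance (X : Type) [MT X] : CL X := ⟨uf_const X⟩

instance : CL MM := ⟨uf_M⟩

/-- ordinals -/
class IsOd (a : MM) : Prop where
  out : Od a

/-- the underlying element -/
def El.v {a : MM} (x : El a) : MM := x.1

/-- an element -/
def El.mk {a : MM} (x : MM) (h : x ∈ a) : El a := ⟨x, h⟩

theorem El.mem {a : MM} (x : El a) : x.v ∈ a := x.2

theorem El.ext {a : MM} {x y : El a} (h : x.v = y.v) : x = y := Subtype.ext h

theorem El.od {a : MM} [h : IsOd a] (x : El a) : Od x.v := h.out.el x.2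

instance dd_elv {Γ : Type} [MC Γ] {a : Γ → MM} (t : ∀ g, El (a g)) [h : DD t] :
    DD fun g => (t g).v := ⟨h.out⟩

instance dd_elmk {Γ : Type} [MC Γ] {a : Γ → MM} (t : Γ → MM) (k : ∀ g, t g ∈ a g) [h : DD t] :
    DD fun g => El.mk (t g) (k g) := ⟨h.out⟩

open Classical in
instance (a : MM) [IsOd a] : LinearOrder (El a) :=
  have : IsStrictTotalOrder (El a) fun x y => x.v ∈ y.v :=
    { trichotomous := fun x y h1 h2 => El.ext (((x.od.tri y.od).resolve_left h1).resolve_right h2)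
      irrefl := fun _ => not_mem_self _
      trans := fun _ _ c h1 h2 => c.od.tr h2 h1 }
  linearOrderOfSTO fun x y => x.v ∈ y.v

theorem El.lt_def {a : MM} [IsOd a] {x y : El a} : x < y ↔ x.v ∈ y.v := Iff.rfl

instance do_El {Γ : Type} [MC Γ] (a : Γ → MM) [∀ g, IsOd (a g)] : DO fun g => El (a g) :=
  ⟨(inferInstance : DP fun p : Cx fun q : Cx fun g => El (a g) => El (a q.1) =>
    p.1.2 = p.2 ∨ p.1.2.v ∈ p.2.v)⟩

instance (a : MM) [IsOd a] : OD (El a) := (do_El fun _ => a).od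

instance (a : MM) [IsOd a] : WFL (El a) := ⟨fun _ h => od_least El.v El.od _ h⟩

instance : IsOd om := ⟨od_om⟩

/-- the natural numbers of the model -/
abbrev NN : Type := El om

namespace NN

instance : Zero NN := ⟨El.mk emp emp_mem_om⟩

/-- successor -/
def suc (n : NN) : NN := El.mk (MP_5f3b23_lc.Zf.suc n.v) (suc_mem_om n.mem)

instance dd_suc {Γ : Type} [MC Γ] (a : Γ → NN) [h : DD a] : DD fun g => (a g).suc := by
  obtain ⟨F, _, h1⟩ := h.out
  exact DD.of (fun x => MP_5f3b23_lc.Zf.suc (F x)) fun g => by rw [h1]; rfl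

theorem lt_suc_iff {m n : NN} : m < n.suc ↔ m ≤ n :=
  mem_suc.trans (or_comm.trans (or_congr ⟨El.ext, congrArg El.v⟩ Iff.rfl))

theorem lt_suc (n : NN) : n < n.suc := lt_suc_iff.2 le_rfl

theorem le_suc (n : NN) : n ≤ n.suc := (lt_suc n).le

theorem not_lt_zero (n : NN) : ¬ n < 0 := not_mem_emp _

theorem zero_le (n : NN) : 0 ≤ n := not_lt.1 (not_lt_zero n)

instance : OrderBot NN := { bot := 0, bot_le := zero_le }

instance : NoMaxOrder NN := ⟨fun n => ⟨_, lt_suc n⟩⟩

instance : Nonempty NN := ⟨0⟩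

theorem suc_le_iff {m n : NN} : m.suc ≤ n ↔ m < n := by rw [← not_lt, lt_suc_iff, not_le]

@[simp] theorem suc_le_suc {m n : NN} : m.suc ≤ n.suc ↔ m ≤ n := suc_le_iff.trans lt_suc_iff

@[simp] theorem suc_inj {m n : NN} : m.suc = n.suc ↔ m = n := by
  simp only [le_antisymm_iff, suc_le_suc]

@[simp] theorem suc_ne_zero (n : NN) : n.suc ≠ 0 := ((zero_le n).trans_lt (lt_suc n)).ne'

@[simp] theorem zero_ne_suc (n : NN) : 0 ≠ n.suc := (suc_ne_zero n).symm

@[elab_as_elim] theorem ind {P : NN → Prop} [h : DP P] (n : NN) (zero : P 0) (succ : ∀ n, P n → P n.suc) :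
    P n := by
  obtain ⟨Q, _, hQ⟩ := h.out
  exact (hQ n).1 (om_ind Q ((hQ 0).2 zero)
    (fun m hm k => (hQ (suc ⟨m, hm⟩)).2 (succ _ ((hQ ⟨m, hm⟩).1 k))) n.2)

theorem cases (n : NN) : n = 0 ∨ ∃ m : NN, n = m.suc :=
  ind (P := fun n => n = 0 ∨ ∃ m : NN, n = m.suc) n (Or.inl rfl) fun n _ => Or.inr ⟨n, rfl⟩

theorem strictMono_of_lt_suc {X : Type} [MC X] [Preorder X] [OD X] {f : NN → X} [DD f]
    (h : ∀ n, f n < f n.suc) : StrictMono f := fun a b =>
  ind (P := fun b => a < b → f a < f b) b (fun k => (not_lt_zero _ k).elim) fun n ih k =>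
    (lt_suc_iff.1 k).eq_or_lt.elim (fun e => e ▸ h a) fun e => (ih e).trans (h n)

/-- standard numbers -/
def of (n : ℕ) : NN := El.mk (num n) (num_mem_om n)

theorem of_inj : Function.Injective of := fun _ _ h => num_inj (congrArg El.v h)

/-- recursion with values in a class -/
theorem exists_rec {X : Type} [MC X] [CL X] (z : X) (s : X → X) [hs : DD s] :
    ∃ f : NN → X, DD f ∧ f 0 = z ∧ ∀ n, f n.suc = s (f n) := by
  obtain ⟨S, _, hS⟩ := hs.out
  let G : MM → MM := fun f => cnd (dom f = emp) (enc z) (S (ap f (sUn (dom f))))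
  have : Fn1 G := mkF _
  have h0 : rc G emp = enc z := by
    rw [rc_eq G od_emp]; exact cnd_pos dom_lam
  have h1 : ∀ n : NN, rc G n.suc.v = S (rc G n.v) := fun n => by
    have e : sUn n.suc.v = n.v := zext fun x => mem_sUn.trans ⟨fun ⟨y, h1, h2⟩ =>
      (mem_suc.1 h1).elim (fun k => n.od.tr k h2) fun k => k ▸ h2, fun k => ⟨_, self_mem_suc _, k⟩⟩
    rw [rc_eq G n.suc.od]
    refine (cnd_neg ?_).trans ?_
    · rw [dom_lam]; exact suc_ne_emp _
    · rw [dom_lam, e, ap_lam (lt_suc n)]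
  have h2 : ∀ n : NN, ∃ x : X, enc x = rc G n.v := fun n =>
    have : DD (rc G) := DD.of (rc G) fun _ => rfl
    ind (P := fun n => ∃ x : X, enc x = rc G n.v) n ⟨z, h0.symm⟩
      fun n ⟨x, e⟩ => ⟨s x, by rw [h1, ← e, hS]⟩
  choose f hf using h2
  exact ⟨f, DD.of (rc G) fun n => (hf n).symm, MC.inj _ _ ((hf 0).trans h0),
    fun n => MC.inj _ _ (by rw [hf, h1, ← hf, hS])⟩

end NN

/-- the type of codes -/
def eqEl (X : Type) [MT X] : X ≃ El (car X) :=
  Equiv.ofBijective (fun x => El.mk (enc x) (enc_mem x))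
    ⟨fun _ _ h => MC.inj _ _ (congrArg El.v h), fun y => (mem_car.1 y.2).imp fun _ => El.ext⟩

instance (X : Type) [MT X] : DD (eqEl X) := DD.of (fun x => x) fun _ => rfl

instance (X : Type) [MT X] : DD (eqEl X).symm :=
  DD.of (fun x => x) fun y => congrArg El.v ((eqEl X).apply_symm_apply y).symm

/-! ### dependent functions -/

/-- a coding along an injective map with definable range -/
@[instance_reducible] def MT.ofInj {A B : Type} [MT B] (f : A → B) (h : Function.Injective f)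
    [k : DP fun b => ∃ a, f a = b] : MT A where
  enc a := enc (f a)
  inj _ _ e := h (MC.inj _ _ e)
  ex := ⟨(sb fun b => ∃ a, f a = b).code, fun _ => PS.mem_code.trans
    ⟨fun ⟨_, ⟨a, e⟩, e'⟩ => ⟨a, e ▸ e'⟩, fun ⟨a, e⟩ => ⟨_, ⟨a, rfl⟩, e⟩⟩⟩

/-- dependent functions of the model -/
structure Pi {X : Type} [MT X] (T : X → Type) [∀ x, MT (T x)] : Type where
  /-- the function -/
  toFun : ∀ x, T x
  dd : DD toFun

section pi
variable {X : Type} [MT X] {T : X → Type} [∀ x, MT (T x)]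

instance : CoeFun (Pi T) fun _ => ∀ x, T x := ⟨Pi.toFun⟩

instance (priority := 3500) dd_pi (f : Pi T) : DD f.toFun := f.dd

@[ext] theorem Pi.ext {f g : Pi T} (h : ∀ x, f x = g x) : f = g := by
  cases f; cases g; congr; exact funext h

/-- a definable map as a function of the model -/
def lp (F : ∀ x, T x) [h : DD F] : Pi T := ⟨F, h⟩

@[simp] theorem lp_apply (F : ∀ x, T x) [DD F] (x : X) : lp F x = F x := rfl

variable [UF T]

/-- the graph -/
def Pi.gr (f : Pi T) : Fn X (Sigma T) := lm fun x => ⟨x, f x⟩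

theorem Pi.gr_range (b : Fn X (Sigma T)) : (∃ a : Pi T, a.gr = b) ↔ ∀ x, (b x).1 = x := by
  refine ⟨fun ⟨a, e⟩ x => e ▸ rfl, fun h => ?_⟩
  obtain ⟨f, _, hf⟩ := chsD (T := T) (R := fun x y => Sigma.mk x y = b x) fun x => by
    have := h x
    generalize b x = p at this
    obtain ⟨y, t⟩ := p
    subst this
    exact ⟨t, rfl⟩
  exact ⟨lp f, Fn.ext hf⟩

instance mtPi : MT (Pi T) :=
  MT.ofInj Pi.gr (fun _ _ h => Pi.ext fun x => eq_of_heq (Sigma.mk.inj (Fn.congr h x)).2)
    (k := (inferInstance : DP fun b : Fn X (Sigma T) => ∀ x, (b x).1 = x).congr Pi.gr_range)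

instance (priority := 1800) dd_piapp {Γ : Type} [MC Γ] (f : Γ → Pi T) (a : Γ → X) [hf : DD f]
    [DD a] : DD fun g => f g (a g) :=
  have : DD fun g => (f g).gr := hf.of_enc fun _ => rfl
  (inferInstance : DD fun g => ((f g).gr (a g)).2).of_enc fun _ => rfl

instance dd_lp {Γ : Type} [MC Γ] (F : Γ → ∀ x, T x) {h : ∀ g, DD (F g)}
    [DD fun p : Cx fun _ : Γ => X => F p.1 p.2] : DD fun g => lp (F g) :=
  (inferInstance : DD fun g => lm fun x => Sigma.mk x (F g x)).of_enc fun _ => rfl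

theorem chsPi {R : ∀ x, T x → Prop} [DP2 R] (h : ∀ x, ∃ y, R x y) : ∃ f : Pi T, ∀ x, R x (f x) :=
  let ⟨f, h1, h2⟩ := chsD h; ⟨⟨f, h1⟩, h2⟩

end pi

end Pool.Agent.P.MP_af1204_lc.Inn
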