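import Pool.Agent.P.MP_0d6be8_lc.Inn.TSet

set_option autoImplicit false
set_option linter.unusedSectionVars false
set_option synthInstance.maxSize 4000

/-! Definable orders, well-orders of the model, choice and recursion. -/

noncomputable section

open Pool.Agent.P.MP_5f3b23_lc.Zf (Od)

namespace Pool.Agent.P.MP_af1204_lc.Inn

variable [Md]

/-- definable families of orders -/
class DO {Γ : Type} [MC Γ] (X : Γ → Type) [∀ g, MC (X g)] [∀ g, Preorder (X g)] : Prop where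
  out : DP fun p : Cx fun q : Cx X => X q.1 => p.1.2 ≤ p.2

/-- a definable order -/
class OD (X : Type) [MC X] [Preorder X] : Prop where
  out : DP fun p : Cx fun _ : Cw X => X => p.1.1 ≤ p.2

/-- equal orders -/
class SameO {Γ : Type} {T : Γ → Type} (i j : ∀ g, Preorder (T g)) : Prop where
  eq : i = j

instance {Γ : Type} {T : Γ → Type} (i : ∀ g, Preorder (T g)) : SameO i i := ⟨rfl⟩

section rules
variable {Γ : Type} [MC Γ]

instance dp_le {X : Γ → Type} [∀ g, MC (X g)] [∀ g, Preorder (X g)] [h : DO X] (a b : ∀ g, X g)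
    [DD a] [DD b] : DP fun g => a g ≤ b g := h.out.comp fun g => ⟨⟨g, a g⟩, b g⟩

instance dp_lt {X : Γ → Type} [∀ g, MC (X g)] [∀ g, Preorder (X g)] [DO X] (a b : ∀ g, X g)
    [DD a] [DD b] : DP fun g => a g < b g :=
  (inferInstance : DP fun g => a g ≤ b g ∧ ¬ b g ≤ a g).congr fun _ => lt_iff_le_not_ge

instance (priority := 3000) do_const (X : Type) [MC X] [Preorder X] [h : OD X] :
    DO fun _ : Γ => X := ⟨h.out.comp fun p : Cx fun _ : (Cx fun _ : Γ => X) => X => ⟨⟨p.1.2, trivial⟩, p.2⟩⟩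

theorem DO.comp {A : Type} [MC A] {T : A → Type} [∀ a, MC (T a)] [∀ a, Preorder (T a)] (h : DO T)
    (a : Γ → A) [DD a] : DO fun g => T (a g) :=
  ⟨h.out.comp fun p : Cx fun q : Cx fun g => T (a g) => T (a q.1) => ⟨⟨a p.1.1, p.1.2⟩, p.2⟩⟩

instance (priority := 14) do_v1 {A : Type} [MC A] (T : A → Type) [i : ∀ a, MC (T a)]
    [o : ∀ a, Preorder (T a)] (a : Γ → A) {j : ∀ g, MC (T (a g))} {k : ∀ g, Preorder (T (a g))}
    [h : DO T] [DD a] [e : Same (fun g => i (a g)) j] [e' : SameO (fun g => o (a g)) k] :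
    @DO _ Γ _ (fun g => T (a g)) j k := e.eq ▸ e'.eq ▸ h.comp a

instance (priority := 2900) do_root [Root Γ] (T : Γ → Type) [∀ g, MC (T g)] [∀ g, Preorder (T g)]
    [h : DO fun p : Cw Γ => T p.1] : DO T :=
  ⟨h.out.comp fun p : Cx fun q : Cx T => T q.1 => ⟨⟨⟨p.1.1, trivial⟩, p.1.2⟩, p.2⟩⟩

theorem DO.od {X : Type} [MC X] [Preorder X] (h : DO fun _ : Cw Unit => X) : OD X :=
  ⟨h.out.comp fun p : Cx fun _ : Cw X => X => ⟨⟨⟨(), trivial⟩, p.1.1⟩, p.2⟩⟩

instance dd_decide (c : Γ → Prop) {d : ∀ g, Decidable (c g)} [DP c] :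
    DD fun g => @decide (c g) (d g) :=
  (dd_ite c (d := d) (fun _ => true) fun _ => false).congr fun g => by
    by_cases h : c g <;> simp [h]

instance dd_max {X : Γ → Type} [∀ g, MC (X g)] [∀ g, LinearOrder (X g)] [DO X] (a b : ∀ g, X g)
    [DD a] [DD b] : DD fun g => max (a g) (b g) :=
  (inferInstance : DD fun g => if a g ≤ b g then b g else a g).congr fun _ => max_def _ _

instance dd_min {X : Γ → Type} [∀ g, MC (X g)] [∀ g, LinearOrder (X g)] [DO X] (a b : ∀ g, X g)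
    [DD a] [DD b] : DD fun g => min (a g) (b g) :=
  (inferInstance : DD fun g => if a g ≤ b g then a g else b g).congr fun _ => min_def _ _

instance do_ps {X : Γ → Type} [∀ g, MT (X g)] [UF X] : DO fun g => PS (X g) := ⟨dp_subset _ _⟩

variable {X Y : Γ → Type} [∀ g, MT (X g)] [∀ g, MT (Y g)] [∀ g, Preorder (X g)]
  [∀ g, Preorder (Y g)]

instance do_sub [DO X] (P : ∀ g, X g → Prop) [∀ g, DP (P g)] : DO fun g => {x // P g x} :=
  ⟨(inferInstance : DP fun p : Cx fun q : Cx fun g => {x // P g x} => {x // P q.1 x} =>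
    p.1.2.1 ≤ p.2.1)⟩

instance do_withBot [UF X] [DO X] : DO fun g => WithBot (X g) :=
  ⟨(inferInstance : DP fun p : Cx fun q : Cx fun g => WithBot (X g) => WithBot (X q.1) =>
    p.1.2 = ⊥ ∨ ∃ a b : X p.1.1, a ≤ b ∧ p.1.2 = WithBot.some a ∧ p.2 = WithBot.some b).congr
    fun _ => WithBot.le_def⟩

instance do_withTop [UF X] [DO X] : DO fun g => WithTop (X g) :=
  ⟨(inferInstance : DP fun p : Cx fun q : Cx fun g => WithTop (X g) => WithTop (X q.1) =>
    p.2 = ⊤ ∨ ∃ a b : X p.1.1, a ≤ b ∧ p.1.2 = WithTop.some a ∧ p.2 = WithTop.some b).congr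
    fun _ => WithTop.le_def⟩

instance do_lex [DO X] [DO Y] : DO fun g => Lex (X g × Y g) :=
  ⟨(inferInstance : DP fun p : Cx fun q : Cx fun g => Lex (X g × Y g) => Lex (X q.1 × Y q.1) =>
    (ofLex p.1.2).1 < (ofLex p.2).1 ∨ (ofLex p.1.2).1 = (ofLex p.2).1 ∧
      (ofLex p.1.2).2 ≤ (ofLex p.2).2).congr fun _ => Prod.Lex.le_iff⟩


instance dp_strictMono [UF X] [DO X] [DO Y] (f : ∀ g, X g → Y g) [DD fun p : Cx X => f p.1 p.2] :
    DP fun g => StrictMono (f g) := by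
  unfold StrictMono; infer_instance

instance dp_monotone [UF X] [DO X] [DO Y] (f : ∀ g, X g → Y g) [DD fun p : Cx X => f p.1 p.2] :
    DP fun g => Monotone (f g) := by
  unfold Monotone; infer_instance

instance dp_strictMonoOn [UF X] [DO X] [DO Y] (f : ∀ g, X g → Y g) (A : ∀ g, PS (X g)) [DD A]
    [DD fun p : Cx X => f p.1 p.2] : DP fun g => StrictMonoOn (f g) (A g) := by
  unfold StrictMonoOn; infer_instance

instance dp_lower [UF X] [DO X] (A : ∀ g, PS (X g)) [DD A] : DP fun g => IsLowerSet (A g).s := by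
  unfold IsLowerSet; infer_instance

instance dd_unbotD (d : ∀ g, X g) (a : ∀ g, WithBot (X g)) [DD d] [h : DD a] :
    DD fun g => WithBot.unbotD (d g) (a g) :=
  (@dd_getD _ _ _ _ _ a d h _).congr fun g => by cases a g <;> rfl

end rules

section od
variable {X Y : Type} [MT X] [MT Y] [Preorder X] [Preorder Y]

instance [OD X] (P : X → Prop) [DP P] : OD {x // P x} := (do_sub fun _ => P).od

instance [OD X] : OD (WithBot X) := do_withBot.od

instance [OD X] : OD (WithTop X) := do_withTop.od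

instance [OD X] [OD Y] : OD (Lex (X × Y)) := do_lex.od

instance {X : Type} [MT X] : OD (PS X) := do_ps.od

theorem OD.finite [Finite X] : OD X :=
  ⟨DP.cases (fun p : Cx fun _ : Cw X => X => (p.1.1, p.2)) (fun j _ => j.1 ≤ j.2)
    fun _ => inferInstance⟩

instance (n : ℕ) : OD (Fin n) := OD.finite

instance : OD Bool := OD.finite

variable [OD X]

/-- initial segment -/
def Iio (a : X) : PS X := sb fun x => x < a

/-- initial segment -/
def Iic (a : X) : PS X := sb fun x => x ≤ a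

/-- final segment -/
def Ioi (a : X) : PS X := sb fun x => a < x

/-- interval -/
def Ioo (a b : X) : PS X := sb fun x => a < x ∧ x < b

@[simp] theorem mem_Iio {a x : X} : x ∈ Iio a ↔ x < a := Iff.rfl

@[simp] theorem mem_Iic {a x : X} : x ∈ Iic a ↔ x ≤ a := Iff.rfl

@[simp] theorem mem_Ioi {a x : X} : x ∈ Ioi a ↔ a < x := Iff.rfl

@[simp] theorem mem_Ioo {a b x : X} : x ∈ Ioo a b ↔ a < x ∧ x < b := Iff.rfl

theorem Iio_subset_Iio {a b : X} (h : a ≤ b) : Iio a ⊆ Iio b := fun _ k => lt_of_lt_of_le k h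

theorem isLowerSet_Iio (a : X) : IsLowerSet (Iio a).s := _root_.isLowerSet_Iio a

theorem isLowerSet_univ : IsLowerSet (univ : PS X).s := _root_.isLowerSet_univ

end od

theorem Iio_insert {X : Type} [MT X] [PartialOrder X] [OD X] {a : X} : insert a (Iio a) = Iic a :=
  PS.ext fun _ => by simp [le_iff_eq_or_lt]

theorem compl_Iic {X : Type} [MT X] [LinearOrder X] [OD X] {a : X} : (Iic a)ᶜ = Ioi a :=
  PS.ext fun _ => by simp

section rules
variable {Γ : Type} [MC Γ] {X : Γ → Type} [∀ g, MT (X g)] [∀ g, Preorder (X g)] {o : ∀ g, OD (X g)}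
  [UF X] [DO X] (a b : ∀ g, X g) [DD a] [DD b]

instance dd_Iio : DD fun g => Iio (a g) := by unfold Iio; infer_instance

instance dd_Iic : DD fun g => Iic (a g) := by unfold Iic; infer_instance

instance dd_Ioi : DD fun g => Ioi (a g) := by unfold Ioi; infer_instance

instance dd_Ioo : DD fun g => Ioo (a g) (b g) := by unfold Ioo; infer_instance

end rules

/-! ### descriptions and choice -/

/-- the unique witness -/
def uq {T : Type} (P : T → Prop) (h : ∃! t, P t) : T := h.choose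

theorem uq_spec {T : Type} {P : T → Prop} (h : ∃! t, P t) : P (uq P h) := h.choose_spec.1

theorem uq_eq {T : Type} {P : T → Prop} (h : ∃! t, P t) {t : T} (k : P t) : t = uq P h :=
  h.choose_spec.2 t k

instance dd_uq {Γ : Type} [MC Γ] {T : Γ → Type} [∀ g, MC (T g)] [UF T] (P : ∀ g, T g → Prop)
    (h : ∀ g, ∃! t, P g t) [DP fun p : Cx T => P p.1 p.2] : DD fun g => uq (P g) (h g) :=
  DD.of_spec P fun g _ => ⟨uq_eq (h g), fun e => e ▸ uq_spec (h g)⟩

theorem od_least {X : Type} [MT X] (r : X → MM) [DD r] (hr : ∀ x, Od (r x)) (P : X → Prop) [DP P]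
    (h : ∃ x, P x) : ∃ x, P x ∧ ∀ y, P y → r y ∉ r x := by
  obtain ⟨x, hx⟩ := h
  obtain ⟨Q, _, hQ⟩ := (inferInstance : DP fun a : MM => ∃ x, P x ∧ r x = a).out
  obtain ⟨b, -, h1, h2⟩ := MP_5f3b23_lc.Zf.ex_least Q (hr x) ((hQ _).2 ⟨x, hx, rfl⟩)
  obtain ⟨y, hy, rfl⟩ := (hQ b).1 h1
  exact ⟨y, hy, fun z hz k => h2 _ k ((hQ _).2 ⟨z, hz, rfl⟩)⟩

theorem ex_rk (X : Type) [MT X] :
    ∃ r : X → MM, DD r ∧ (∀ x, Od (r x)) ∧ Function.Injective r := by
  obtain ⟨a, ha, ⟨f, h1, h2⟩, -⟩ := MP_5f3b23_lc.Zf.ex_card (car X)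
  exact ⟨fun x => MP_5f3b23_lc.Zf.ap f (enc x), DD.of (fun x => MP_5f3b23_lc.Zf.ap f x) fun _ => rfl,
    fun x => ha.el (h1 _ (enc_mem x)), fun x y e => MC.inj _ _ (h2 _ _ (enc_mem x) (enc_mem y) e)⟩

/-- an enumeration by ordinals -/
def rk (X : Type) [MT X] : X → MM := (ex_rk X).choose

instance dd_rk (X : Type) [MT X] : DD (rk X) := (ex_rk X).choose_spec.1

theorem od_rk {X : Type} [MT X] (x : X) : Od (rk X x) := (ex_rk X).choose_spec.2.1 x

theorem rk_tri {X : Type} [MT X] (x y : X) : rk X x ∈ rk X y ∨ x = y ∨ rk X y ∈ rk X x :=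
  ((od_rk x).tri (od_rk y)).imp_right (Or.imp_left fun e => (ex_rk X).choose_spec.2.2 e)

open Classical in
/-- a witness chosen in the model, `d` if there is none -/
def eps {X : Type} [MT X] (P : X → Prop) (d : X) : X :=
  if h : ∃ x, P x ∧ ∀ y, P y → rk X y ∉ rk X x then h.choose else d

theorem eps_spec {X : Type} [MT X] {P : X → Prop} [DP P] (d : X) (h : ∃ x, P x) : P (eps P d) := by
  have k := od_least (rk X) od_rk P h
  rw [eps, dif_pos k]; exact k.choose_spec.1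

theorem eps_neg {X : Type} [MT X] {P : X → Prop} (d : X) (h : ¬ ∃ x, P x) : eps P d = d :=
  dif_neg fun ⟨x, k, _⟩ => h ⟨x, k⟩

instance dd_eps {Γ X : Type} [MC Γ] [MT X] (P : Γ → X → Prop) (d : Γ → X) [DD d]
    [DP fun p : Cx fun _ : Γ => X => P p.1 p.2] : DD fun g => eps (P g) (d g) := by
  refine DD.of_spec (fun g t => (P g t ∧ ∀ y, P g y → rk X y ∉ rk X t) ∨
    ((¬ ∃ x, P g x ∧ ∀ y, P g y → rk X y ∉ rk X x) ∧ t = d g)) fun g t => ?_
  by_cases h : ∃ x, P g x ∧ ∀ y, P g y → rk X y ∉ rk X x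
  · rw [eps, dif_pos h]
    refine ⟨fun k => ?_, fun e => Or.inl (e ▸ h.choose_spec)⟩
    rcases k with k | k
    · exact ((rk_tri _ _).resolve_left (h.choose_spec.2 _ k.1)).resolve_right (k.2 _ h.choose_spec.1)
    · exact (k.1 h).elim
  · rw [eps, dif_neg h]
    exact ⟨fun k => k.elim (fun k => (h ⟨t, k⟩).elim) And.right, fun e => Or.inr ⟨h, e⟩⟩

/-- choice for a family of types -/
theorem chsD {X : Type} [MT X] {T : X → Type} [∀ x, MT (T x)] [UF T] {R : ∀ x, T x → Prop}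
    [DP2 R] (h : ∀ x, ∃ y, R x y) : ∃ f : ∀ x, T x, DD f ∧ ∀ x, R x (f x) := by
  have k : ∀ x, ∃! y, R x y ∧ ∀ y', R x y' → rk (Sigma T) ⟨x, y'⟩ ∉ rk (Sigma T) ⟨x, y⟩ := fun x => by
    obtain ⟨y, hy⟩ := od_least (fun y => rk (Sigma T) ⟨x, y⟩) (fun _ => od_rk _) (R x) (h x)
    refine ⟨y, hy, fun z hz => ?_⟩
    have := ((rk_tri _ _).resolve_left (hy.2 _ hz.1)).resolve_right (hz.2 _ hy.1)
    exact eq_of_heq (Sigma.mk.inj this).2
  exact ⟨fun x => uq _ (k x), inferInstance, fun x => (uq_spec (k x)).1⟩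

section chs
variable {X Y Z W : Type} [MT X] [MT Y] [MT Z] [MT W]

/-- choice -/
theorem chs {R : X → Y → Prop} [DP2 R] (h : ∀ x, ∃ y, R x y) : ∃ f : Fn X Y, ∀ x, R x (f x) :=
  let ⟨f, h1, h2⟩ := chsD h; ⟨⟨f, h1⟩, h2⟩

/-- choice under a hypothesis -/
theorem chsH [Nonempty Y] {P : X → Prop} [DP P] {R : X → Y → Prop} [DP2 R]
    (h : ∀ x, P x → ∃ y, R x y) : ∃ f : Fn X Y, ∀ x, P x → R x (f x) :=
  chs (R := fun x y => P x → R x y) fun x => by
    by_cases k : P x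
    · exact (h x k).imp fun _ a _ => a
    · exact ⟨Classical.arbitrary Y, fun a => (k a).elim⟩

/-- choice with two arguments -/
theorem chs2 {R : X → Y → Z → Prop} [DP3 R] (h : ∀ x y, ∃ z, R x y z) :
    ∃ f : Fn X (Fn Y Z), ∀ x y, R x y (f x y) :=
  chs (R := fun x (f : Fn Y Z) => ∀ y, R x y (f y)) fun x => chs (h x)

/-- choice of two values -/
theorem chsP {R : X → Y → Z → Prop} [DP3 R] (h : ∀ x, ∃ y z, R x y z) :
    ∃ (f : Fn X Y) (g : Fn X Z), ∀ x, R x (f x) (g x) :=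
  let ⟨f, hf⟩ := chs h; ⟨f, chs hf⟩

/-- choice of three values -/
theorem chsT {R : X → Y → Z → W → Prop} [DP4 R] (h : ∀ x, ∃ y z w, R x y z w) :
    ∃ (f : Fn X Y) (g : Fn X Z) (k : Fn X W), ∀ x, R x (f x) (g x) (k x) :=
  let ⟨f, hf⟩ := chs h; ⟨f, chsP hf⟩

/-- a left inverse -/
theorem exists_inv [Nonempty X] {f : X → Y} [DD f] (h : Function.Injective f) :
    ∃ g : Fn Y X, ∀ x, g (f x) = x :=
  let ⟨g, hg⟩ := chsH (P := fun y => ∃ x, f x = y) (R := fun y x => f x = y) fun _ k => k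
  ⟨g, fun x => h (hg _ ⟨x, rfl⟩)⟩

/-- extension along an injective map -/
theorem exists_extend {e : X → Y} [DD e] (h : Function.Injective e) (f : X → Z) [DD f] (d : Y → Z)
    [DD d] : ∃ g : Fn Y Z, (∀ x, g (e x) = f x) ∧ ∀ y, (¬ ∃ x, e x = y) → g y = d y := by
  obtain ⟨g, hg⟩ := chs (R := fun y z => (∀ x, e x = y → z = f x) ∧ ((¬ ∃ x, e x = y) → z = d y))
    fun y => by
      by_cases k : ∃ x, e x = y
      · obtain ⟨x, rfl⟩ := k
        exact ⟨f x, fun x' e' => by rw [h e'], fun k => (k ⟨x, rfl⟩).elim⟩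
      · exact ⟨d y, fun x e' => (k ⟨x, e'⟩).elim, fun _ => rfl⟩
  exact ⟨g, fun x => (hg _).1 x rfl, fun y => (hg y).2⟩

end chs

/-! ### well-orders -/

/-- an order that is well-founded in the model -/
class WFL (X : Type) [MT X] [Preorder X] : Prop extends OD X where
  has_min : ∀ A : PS X, A.Nonempty → ∃ m ∈ A, ∀ x ∈ A, ¬ x < m

section wf
variable {X Y : Type} [MT X] [MT Y]

theorem wf_min [Preorder X] [WFL X] (P : X → Prop) [DP P] (h : ∃ x, P x) :
    ∃ m, P m ∧ ∀ x, P x → ¬ x < m := WFL.has_min (sb P) h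

@[elab_as_elim] theorem wf_ind [Preorder X] [WFL X] {P : X → Prop} [DP P] (a : X)
    (ind : ∀ a, (∀ b < a, P b) → P a) : P a := by
  by_contra h
  obtain ⟨m, h1, h2⟩ := wf_min (fun x => ¬ P x) ⟨a, h⟩
  exact h1 (ind m fun b hb => not_not.1 fun k => h2 b k hb)

theorem wmin_ex [LinearOrder X] [WFL X] (A : PS X) (h : A.Nonempty) :
    ∃! m, m ∈ A ∧ ∀ x ∈ A, ¬ x < m :=
  let ⟨m, h1⟩ := WFL.has_min A h
  ⟨m, h1, fun _ k => le_antisymm (not_lt.1 (k.2 _ h1.1)) (not_lt.1 (h1.2 _ k.1))⟩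

/-- least element -/
def wmin [LinearOrder X] [WFL X] (A : PS X) (h : A.Nonempty) : X := uq _ (wmin_ex A h)

theorem wmin_mem [LinearOrder X] [WFL X] (A : PS X) (h : A.Nonempty) : wmin A h ∈ A :=
  (uq_spec (wmin_ex A h)).1

theorem not_lt_wmin [LinearOrder X] [WFL X] (A : PS X) {h : A.Nonempty} {x : X} (k : x ∈ A) :
    ¬ x < wmin A h := (uq_spec (wmin_ex A h)).2 x k

instance dd_wmin {Γ : Type} [MC Γ] {X : Γ → Type} [∀ g, MT (X g)] [∀ g, LinearOrder (X g)]
    {_ : ∀ g, WFL (X g)} [UF X] [DO X] (A : ∀ g, PS (X g)) (h : ∀ g, (A g).Nonempty) [DD A] :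
    DD fun g => wmin (A g) (h g) := by
  unfold wmin; infer_instance

theorem WFL.of_map [Preorder X] [Preorder Y] [OD X] [WFL Y] (f : X → Y) [DD f] (h : StrictMono f) :
    WFL X := ⟨fun A ⟨a, ha⟩ => by
  obtain ⟨_, ⟨m, h1, rfl⟩, h2⟩ := WFL.has_min (image f A) ⟨_, a, ha, rfl⟩
  exact ⟨m, h1, fun x hx k => h2 _ ⟨x, hx, rfl⟩ (h k)⟩⟩

theorem WFL.of_wf [Preorder X] [OD X] [WellFoundedLT X] : WFL X :=
  ⟨fun A h => wellFounded_lt.has_min A.s h⟩

instance (n : ℕ) : WFL (Fin n) := WFL.of_wf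

instance : WFL Bool := WFL.of_wf

instance [Preorder X] [WFL X] (P : X → Prop) [DP P] : WFL {x // P x} :=
  WFL.of_map Subtype.val fun _ _ h => h

instance [Preorder X] [WFL X] : WFL (WithBot X) := ⟨fun A ⟨a, ha⟩ => by
  by_cases h : ⊥ ∈ A
  · exact ⟨⊥, h, fun _ _ => WithBot.not_lt_bot _⟩
  · have k : ∀ x ∈ A, ∃ y : X, x = y := fun x hx => by
      induction x using WithBot.recBotCoe with
      | bot => exact (h hx).elim
      | coe y => exact ⟨y, rfl⟩
    obtain ⟨y, rfl⟩ := k a ha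
    obtain ⟨m, h1, h2⟩ := wf_min (fun y : X => (y : WithBot X) ∈ A) ⟨y, ha⟩
    refine ⟨m, h1, fun x hx => ?_⟩
    obtain ⟨z, rfl⟩ := k x hx
    exact fun e => h2 z hx (WithBot.coe_lt_coe.1 e)⟩

instance [Preorder X] [WFL X] : WFL (WithTop X) := ⟨fun A ⟨a, ha⟩ => by
  by_cases h : ∃ y : X, (y : WithTop X) ∈ A
  · obtain ⟨m, h1, h2⟩ := wf_min _ h
    refine ⟨m, h1, fun x hx => ?_⟩
    induction x using WithTop.recTopCoe with
    | top => exact WithTop.not_top_lt _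
    | coe z => exact fun e => h2 z hx (WithTop.coe_lt_coe.1 e)
  · refine ⟨a, ha, fun x hx => ?_⟩
    induction x using WithTop.recTopCoe with
    | top => exact WithTop.not_top_lt _
    | coe z => exact (h ⟨z, hx⟩).elim⟩

instance [Preorder X] [Preorder Y] [WFL X] [WFL Y] : WFL (Lex (X × Y)) := ⟨fun A ⟨a, ha⟩ => by
  obtain ⟨x, ⟨y0, hy⟩, h1⟩ := wf_min (fun x => ∃ y, toLex (x, y) ∈ A) ⟨(ofLex a).1, (ofLex a).2, ha⟩
  obtain ⟨y, h2, h3⟩ := wf_min (fun y => toLex (x, y) ∈ A) ⟨y0, hy⟩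
  refine ⟨_, h2, fun z hz k => ?_⟩
  rcases Prod.Lex.lt_iff.1 k with k | ⟨k, k'⟩
  · exact h1 _ ⟨(ofLex z).2, hz⟩ k
  · exact h3 (ofLex z).2 ((show (ofLex z).1 = x from k) ▸ hz) k'⟩

/-- every set of the model has a well-order -/
theorem exists_wo (X : Type) [MT X] : ∃ _ : LinearOrder X, WFL X := by
  classical
  have : IsStrictTotalOrder X fun x y => rk X x ∈ rk X y :=
    { trichotomous := fun a b h1 h2 => ((rk_tri a b).resolve_left h1).resolve_right h2
      irrefl := fun _ => MP_5f3b23_lc.Zf.not_mem_self _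
      trans := fun _ _ c h1 h2 => (od_rk c).tr h2 h1 }
  refine ⟨linearOrderOfSTO fun x y => rk X x ∈ rk X y, ?_⟩
  let := linearOrderOfSTO fun x y => rk X x ∈ rk X y
  have : OD X := ⟨(inferInstance : DP fun p : Cx fun _ : Cw X => X =>
    p.1.1 = p.2 ∨ rk X p.1.1 ∈ rk X p.2)⟩
  exact ⟨fun A h => od_least (rk X) od_rk _ h⟩

/-- recursion -/
theorem rec_fn [LinearOrder X] [WFL X] [Nonempty Y] (H : X → Fn X Y → Y) [DD2 H]
    (congr : ∀ t f g, (∀ i < t, f i = g i) → H t f = H t g) : ∃ f : Fn X Y, ∀ t, f t = H t f := by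
  have un : ∀ (f g : Fn X Y) t, (∀ i ≤ t, f i = H i f) → (∀ i ≤ t, g i = H i g) → f t = g t :=
    fun f g t => wf_ind (P := fun t => (∀ i ≤ t, f i = H i f) → (∀ i ≤ t, g i = H i g) → f t = g t)
      t fun t ih h1 h2 => by
        rw [h1 t le_rfl, h2 t le_rfl]
        exact congr _ _ _ fun i hi => ih i hi (fun j hj => h1 j (hj.trans hi.le))
          fun j hj => h2 j (hj.trans hi.le)
  have gl : ∀ (P : X → Prop) [DP P], (∀ i j, j ≤ i → P i → P j) →
      (∀ t, P t → ∃ f : Fn X Y, ∀ i ≤ t, f i = H i f) → ∃ g : Fn X Y, ∀ t, P t → g t = H t g :=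
    fun P _ hP h => by
      obtain ⟨F, hF⟩ := chsH h
      refine ⟨lm fun t => F t t, fun t ht => (hF t ht t le_rfl).trans (congr _ _ _ fun i hi => ?_)⟩
      exact un _ (F i) i (fun j hj => hF t ht j (hj.trans hi.le)) (hF i (hP _ _ hi.le ht))
  refine gl (fun _ => True) (fun _ _ _ _ => trivial) (fun t _ => ?_) |>.imp fun _ h t => h t trivial
  refine wf_ind (P := fun t => ∃ f : Fn X Y, ∀ i ≤ t, f i = H i f) t fun t ih => ?_
  obtain ⟨g, hg⟩ := gl (· < t) (fun _ _ h k => h.trans_lt k) ih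
  refine ⟨g.update t (H t g), fun i hi => ?_⟩
  have e : H i (g.update t (H t g)) = H i g :=
    congr _ _ _ fun j hj => Fn.update_of_ne (hj.trans_le hi).ne _ _
  rw [e]
  rcases hi.eq_or_lt with rfl | hi
  · exact Fn.update_self ..
  · rw [Fn.update_of_ne hi.ne, hg i hi]

theorem exists_rec {T S : Type} [MT T] [MT S] [LinearOrder T] [WFL T] [Nonempty S]
    (P : T → Fn T S → S → Prop) [DP3 P]
    (congr : ∀ t f g s, (∀ i < t, f i = g i) → P t f s → P t g s)
    (step : ∀ t f, (∀ i < t, P i f (f i)) → ∃ s, P t f s) : ∃ f : Fn T S, ∀ t, P t f (f t) := by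
  obtain ⟨f, hf⟩ := rec_fn (fun t f => eps (P t f) (Classical.arbitrary S)) fun t f g e => by
    rw [show P t f = P t g from funext fun s =>
      propext ⟨congr t f g s e, congr t g f s fun i hi => (e i hi).symm⟩]
  refine ⟨f, fun t => wf_ind (P := fun t => P t f (f t)) t fun t ih => ?_⟩
  rw [hf t]
  exact eps_spec _ (step t f ih)

end wf

end Pool.Agent.P.MP_af1204_lc.Inn
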