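import Pool.Agent.P.MP_0d6be8_lc.Inn.TTypes

set_option autoImplicit false
set_option linter.unusedSectionVars false
set_option synthInstance.maxSize 4000

/-! Operations on the sets and functions of the model. -/

noncomputable section

namespace Pool.Agent.P.MP_af1204_lc.Inn

variable [Md]

section defs
variable {X Y Z ι : Type} [MT X] [MT Y] [MT Z] [MT ι]

instance (priority := 3400) dp_mem0 (A : PS X) : DP fun x => x ∈ A := A.dp

instance : CoeSort (PS X) Type := ⟨fun A => {x // x ∈ A}⟩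

/-- the underlying set -/
@[coe] def PS.s (A : PS X) : Set X := {x | x ∈ A}

instance : CoeTC (PS X) (Set X) := ⟨PS.s⟩

@[simp] theorem PS.mem_s {A : PS X} {x : X} : x ∈ A.s ↔ x ∈ A := Iff.rfl

instance : LE (PS X) := ⟨fun A B => ∀ ⦃a⦄, a ∈ A → a ∈ B⟩

instance : PartialOrder (PS X) where
  le_refl _ _ h := h
  le_trans _ _ _ h h' _ k := h' (h k)
  le_antisymm _ _ h h' := PS.ext fun _ => ⟨fun k => h k, fun k => h' k⟩

instance : UsesSetNotationForOrder (PS X) := ⟨⟩

instance : EmptyCollection (PS X) := ⟨sb fun _ => False⟩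

instance : Inhabited (PS X) := ⟨∅⟩

/-- the whole type -/
def univ : PS X := sb fun _ => True

instance : Inter (PS X) := ⟨fun A B => sb fun x => x ∈ A ∧ x ∈ B⟩

instance : Union (PS X) := ⟨fun A B => sb fun x => x ∈ A ∨ x ∈ B⟩

instance : Compl (PS X) := ⟨fun A => sb fun x => x ∉ A⟩

instance : SDiff (PS X) := ⟨fun A B => sb fun x => x ∈ A ∧ x ∉ B⟩

instance : Singleton X (PS X) := ⟨fun a => sb fun x => x = a⟩

instance : Insert X (PS X) := ⟨fun a A => sb fun x => x = a ∨ x ∈ A⟩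

instance : SProd (PS X) (PS Y) (PS (X × Y)) := ⟨fun A B => sb fun p => p.1 ∈ A ∧ p.2 ∈ B⟩

/-- not empty -/
def PS.Nonempty (A : PS X) : Prop := ∃ x, x ∈ A

/-- image -/
def image (f : X → Y) [DD f] (A : PS X) : PS Y := sb fun y => ∃ x, x ∈ A ∧ f x = y

/-- preimage -/
def preimage (f : X → Y) [DD f] (B : PS Y) : PS X := sb fun x => f x ∈ B

/-- range -/
def range (f : ι → X) [DD f] : PS X := sb fun x => ∃ i, f i = x

/-- union of a family -/
def iU (A : ι → PS X) [DD A] : PS X := sb fun x => ∃ i, x ∈ A i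

/-- intersection of a family -/
def iI (A : ι → PS X) [DD A] : PS X := sb fun x => ∀ i, x ∈ A i

/-- union of a family over a set -/
def bU (S : PS ι) (A : ι → PS X) [DD A] : PS X := sb fun x => ∃ i, i ∈ S ∧ x ∈ A i

/-- union of a set of sets -/
def sU (S : PS (PS X)) : PS X := sb fun x => ∃ A, A ∈ S ∧ x ∈ A

/-- intersection of a set of sets -/
def sI (S : PS (PS X)) : PS X := sb fun x => ∀ A, A ∈ S → x ∈ A

end defs

section rules
variable {Γ : Type} [MC Γ] {X Y ι : Γ → Type} [∀ g, MT (X g)] [∀ g, MT (Y g)] [∀ g, MT (ι g)]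

instance dp_subset [UF X] (A B : ∀ g, PS (X g)) [DD A] [DD B] : DP fun g => A g ⊆ B g :=
  (inferInstance : DP fun g => ∀ a, a ∈ A g → a ∈ B g)

instance dp_mem_s (A : ∀ g, PS (X g)) (a : ∀ g, X g) [DD A] [DD a] :
    DP fun g => a g ∈ (A g).s := dp_mem A a

instance dd_empty [UF X] : DD fun g => (∅ : PS (X g)) :=
  (inferInstance : DD fun g => sb fun _ : X g => False)

instance dd_univ [UF X] : DD fun g => (univ : PS (X g)) := by unfold univ; infer_instance

instance dd_inter [UF X] (A B : ∀ g, PS (X g)) [DD A] [DD B] : DD fun g => A g ∩ B g :=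
  (inferInstance : DD fun g => sb fun x => x ∈ A g ∧ x ∈ B g)

instance dd_union [UF X] (A B : ∀ g, PS (X g)) [DD A] [DD B] : DD fun g => A g ∪ B g :=
  (inferInstance : DD fun g => sb fun x => x ∈ A g ∨ x ∈ B g)

instance dd_compl [UF X] (A : ∀ g, PS (X g)) [DD A] : DD fun g => (A g)ᶜ :=
  (inferInstance : DD fun g => sb fun x => x ∉ A g)

instance dd_sdiff [UF X] (A B : ∀ g, PS (X g)) [DD A] [DD B] : DD fun g => A g \ B g :=
  (inferInstance : DD fun g => sb fun x => x ∈ A g ∧ x ∉ B g)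

instance dd_singleton [UF X] (a : ∀ g, X g) [DD a] : DD fun g => ({a g} : PS (X g)) :=
  (inferInstance : DD fun g => sb fun x => x = a g)

instance dd_insert [UF X] (a : ∀ g, X g) (A : ∀ g, PS (X g)) [DD a] [DD A] :
    DD fun g => insert (a g) (A g) :=
  (inferInstance : DD fun g => sb fun x => x = a g ∨ x ∈ A g)

instance dd_sprod [UF X] [UF Y] (A : ∀ g, PS (X g)) (B : ∀ g, PS (Y g)) [DD A] [DD B] :
    DD fun g => A g ×ˢ B g :=
  (inferInstance : DD fun g => sb fun p : X g × Y g => p.1 ∈ A g ∧ p.2 ∈ B g)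

instance dp_nonempty [UF X] (A : ∀ g, PS (X g)) [DD A] : DP fun g => (A g).Nonempty := by
  unfold PS.Nonempty; infer_instance

instance dd_image [UF X] [UF Y] (f : ∀ g, X g → Y g) {_ : ∀ g, DD (f g)}
    [DD fun p : Cx X => f p.1 p.2] (A : ∀ g, PS (X g)) [DD A] : DD fun g => image (f g) (A g) := by
  unfold image; infer_instance

instance dd_preimage [UF X] (f : ∀ g, X g → Y g) {_ : ∀ g, DD (f g)}
    [DD fun p : Cx X => f p.1 p.2] (A : ∀ g, PS (Y g)) [DD A] :
    DD fun g => preimage (f g) (A g) := by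
  unfold preimage; infer_instance

instance dd_range [UF X] [UF ι] (f : ∀ g, ι g → X g) {_ : ∀ g, DD (f g)}
    [DD fun p : Cx ι => f p.1 p.2] : DD fun g => range (f g) := by
  unfold range; infer_instance

instance dd_iU [UF X] [UF ι] (f : ∀ g, ι g → PS (X g)) {_ : ∀ g, DD (f g)}
    [DD fun p : Cx ι => f p.1 p.2] : DD fun g => iU (f g) := by
  unfold iU; infer_instance

instance dd_iI [UF X] [UF ι] (f : ∀ g, ι g → PS (X g)) {_ : ∀ g, DD (f g)}
    [DD fun p : Cx ι => f p.1 p.2] : DD fun g => iI (f g) := by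
  unfold iI; infer_instance

instance dd_bU [UF X] [UF ι] (S : ∀ g, PS (ι g)) (f : ∀ g, ι g → PS (X g)) {_ : ∀ g, DD (f g)}
    [DD S] [DD fun p : Cx ι => f p.1 p.2] : DD fun g => bU (S g) (f g) := by
  unfold bU; infer_instance

instance dd_sU [UF X] (S : ∀ g, PS (PS (X g))) [DD S] : DD fun g => sU (S g) := by
  unfold sU; infer_instance

instance dd_sI [UF X] (S : ∀ g, PS (PS (X g))) [DD S] : DD fun g => sI (S g) := by
  unfold sI; infer_instance

instance dp_injective [UF X] (f : ∀ g, X g → Y g) [DD fun p : Cx X => f p.1 p.2] :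
    DP fun g => Function.Injective (f g) := by
  unfold Function.Injective; infer_instance

instance dp_surjective [UF X] [UF Y] (f : ∀ g, X g → Y g) [DD fun p : Cx X => f p.1 p.2] :
    DP fun g => Function.Surjective (f g) := by
  unfold Function.Surjective; infer_instance

instance dp_injOn [UF X] (f : ∀ g, X g → Y g) (A : ∀ g, PS (X g)) [DD A]
    [DD fun p : Cx X => f p.1 p.2] : DP fun g => Set.InjOn (f g) (A g) := by
  unfold Set.InjOn; infer_instance

instance dd_comp {T : Γ → Type} [∀ g, MC (T g)] (f : ∀ g, Y g → T g) (e : ∀ g, X g → Y g)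
    (a : ∀ g, X g) [h : DD fun g => f g (e g (a g))] : DD fun g => (f g ∘ e g) (a g) := h

instance dd_id' (a : ∀ g, X g) [h : DD a] : DD fun g => id (a g) := h

end rules

section fns
variable {X Y Z W : Type} [MT X] [MT Y] [MT Z] [MT W]

/-- power set -/
def powerset (A : PS X) : PS (PS X) := sb fun B => B ⊆ A

/-- composition -/
def Fn.comp (f : Fn Y Z) (e : Fn X Y) : Fn X Z := lm fun x => f (e x)

/-- identity -/
def Fn.id : Fn X X := lm fun x => x

/-- constant function -/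
def Fn.const (X : Type) [MT X] (y : Y) : Fn X Y := lm fun _ => y

open Classical in
/-- change of one value -/
def Fn.update (f : Fn X Y) (a : X) (v : Y) : Fn X Y :=
  lm fun x => if x = a then v else f x

@[simp] theorem Fn.comp_apply (f : Fn Y Z) (e : Fn X Y) (x : X) : f.comp e x = f (e x) := rfl

@[simp] theorem Fn.id_apply (x : X) : Fn.id x = x := rfl

@[simp] theorem Fn.const_apply (y : Y) (x : X) : Fn.const X y x = y := rfl

theorem Fn.coe_comp (f : Fn Y Z) (e : Fn X Y) : (f.comp e).toFun = f.toFun ∘ e.toFun := rfl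

theorem Fn.comp_assoc (f : Fn Z W) (g : Fn Y Z) (e : Fn X Y) :
    (f.comp g).comp e = f.comp (g.comp e) := rfl

@[simp] theorem Fn.comp_id (f : Fn X Y) : f.comp Fn.id = f := rfl

@[simp] theorem Fn.id_comp (f : Fn X Y) : Fn.id.comp f = f := rfl

theorem Fn.congr {f g : Fn X Y} (h : f = g) (x : X) : f x = g x := by rw [h]

theorem Fn.coe_inj {f g : Fn X Y} (h : f.toFun = g.toFun) : f = g := Fn.ext (congrFun h)

instance [Nonempty Y] : Nonempty (Fn X Y) := ⟨Fn.const X (Classical.arbitrary Y)⟩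

instance [Fintype X] [DecidableEq Y] : DecidableEq (Fn X Y) := fun f g =>
  decidable_of_iff (∀ x, f x = g x) ⟨Fn.ext, Fn.congr⟩

open Classical in
theorem Fn.update_apply (f : Fn X Y) (a : X) (v : Y) (x : X) :
    f.update a v x = if x = a then v else f x := rfl

@[simp] theorem Fn.update_self (f : Fn X Y) (a : X) (v : Y) : f.update a v a = v := if_pos rfl

theorem Fn.update_of_ne {x a : X} (h : x ≠ a) (v : Y) (f : Fn X Y) : f.update a v x = f x :=
  if_neg h

@[simp] theorem Fn.update_eq_self (a : X) (f : Fn X Y) : f.update a (f a) = f := Fn.ext fun x => by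
  by_cases h : x = a
  · rw [h, Fn.update_self]
  · exact Fn.update_of_ne h _ _

theorem Fn.update_comm {a b : X} (h : a ≠ b) (v w : Y) (f : Fn X Y) :
    (f.update a v).update b w = (f.update b w).update a v := Fn.ext fun x => by
  by_cases h1 : x = a
  · rw [h1, Fn.update_of_ne h, Fn.update_self, Fn.update_self]
  · by_cases h2 : x = b
    · rw [Fn.update_of_ne h1, h2, Fn.update_self, Fn.update_self]
    · rw [Fn.update_of_ne h1, Fn.update_of_ne h2, Fn.update_of_ne h1, Fn.update_of_ne h2]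

theorem Fn.update_comp_eq_of_injective (g : Fn Y Z) {f : Fn X Y} (hf : Function.Injective f)
    (i : X) (a : Z) : (g.update (f i) a).comp f = (g.comp f).update i a := Fn.ext fun x => by
  by_cases h : x = i
  · rw [h, Fn.comp_apply, Fn.update_self, Fn.update_self]
  · rw [Fn.comp_apply, Fn.update_of_ne (hf.ne h), Fn.update_of_ne h, Fn.comp_apply]

end fns

section rules
variable {Γ : Type} [MC Γ] {X Y Z : Γ → Type} [∀ g, MT (X g)] [∀ g, MT (Y g)] [∀ g, MT (Z g)]

instance dd_powerset [UF X] (A : ∀ g, PS (X g)) [DD A] : DD fun g => powerset (A g) := by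
  unfold powerset; infer_instance

instance dd_fcomp [UF X] (f : ∀ g, Fn (Y g) (Z g)) (e : ∀ g, Fn (X g) (Y g)) [DD f] [DD e] :
    DD fun g => (f g).comp (e g) := by
  unfold Fn.comp; infer_instance

instance dd_fid [UF X] : DD fun g => (Fn.id : Fn (X g) (X g)) := by
  unfold Fn.id; infer_instance

instance dd_fconst [UF X] (a : ∀ g, Y g) [DD a] : DD fun g => Fn.const (X g) (a g) := by
  unfold Fn.const; infer_instance

instance dd_update [UF X] (f : ∀ g, Fn (X g) (Y g)) (a : ∀ g, X g) (v : ∀ g, Y g) [DD f] [DD a]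
    [DD v] : DD fun g => (f g).update (a g) (v g) := by
  unfold Fn.update; infer_instance

end rules

section lemmas
variable {X Y Z ι : Type} [MT X] [MT Y] [MT Z] [MT ι] {A B C D : PS X} {a b x : X}

theorem subset_def : A ⊆ B ↔ ∀ x ∈ A, x ∈ B := Iff.rfl

theorem Subset.rfl : A ⊆ A := fun _ h => h

theorem Subset.refl (A : PS X) : A ⊆ A := fun _ h => h

theorem Subset.antisymm (h : A ⊆ B) (h' : B ⊆ A) : A = B := le_antisymm h h'

theorem PS.s_subset : A.s ⊆ B.s ↔ A ⊆ B := Iff.rfl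

@[simp] theorem mem_univ (x : X) : x ∈ (univ : PS X) := trivial

@[simp] theorem mem_empty_iff_false (x : X) : x ∈ (∅ : PS X) ↔ False := Iff.rfl

theorem notMem_empty (x : X) : x ∉ (∅ : PS X) := id

@[simp] theorem mem_inter_iff (x : X) (A B : PS X) : x ∈ A ∩ B ↔ x ∈ A ∧ x ∈ B := Iff.rfl

@[simp] theorem mem_union (x : X) (A B : PS X) : x ∈ A ∪ B ↔ x ∈ A ∨ x ∈ B := Iff.rfl

@[simp] theorem mem_compl_iff (A : PS X) (x : X) : x ∈ Aᶜ ↔ x ∉ A := Iff.rfl

@[simp] theorem mem_diff (x : X) : x ∈ A \ B ↔ x ∈ A ∧ x ∉ B := Iff.rfl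

@[simp] theorem mem_singleton_iff : a ∈ ({b} : PS X) ↔ a = b := Iff.rfl

theorem mem_singleton (a : X) : a ∈ ({a} : PS X) := rfl

@[simp] theorem mem_insert_iff : a ∈ insert b A ↔ a = b ∨ a ∈ A := Iff.rfl

@[simp] theorem mem_prod {B : PS Y} {p : X × Y} : p ∈ A ×ˢ B ↔ p.1 ∈ A ∧ p.2 ∈ B := Iff.rfl

@[simp] theorem mem_image (f : X → Y) [DD f] (A : PS X) (y : Y) :
    y ∈ image f A ↔ ∃ x, x ∈ A ∧ f x = y := Iff.rfl

@[simp] theorem mem_preimage {f : X → Y} [DD f] {B : PS Y} : x ∈ preimage f B ↔ f x ∈ B := Iff.rfl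

@[simp] theorem mem_range {f : ι → X} [DD f] : x ∈ range f ↔ ∃ i, f i = x := Iff.rfl

@[simp] theorem mem_iUnion {F : ι → PS X} [DD F] : x ∈ iU F ↔ ∃ i, x ∈ F i := Iff.rfl

@[simp] theorem mem_iInter {F : ι → PS X} [DD F] : x ∈ iI F ↔ ∀ i, x ∈ F i := Iff.rfl

@[simp] theorem mem_bU {S : PS ι} {F : ι → PS X} [DD F] : x ∈ bU S F ↔ ∃ i, i ∈ S ∧ x ∈ F i :=
  Iff.rfl

theorem mem_iUnion₂ {S : PS ι} {F : ι → PS X} [DD F] : x ∈ bU S F ↔ ∃ i, ∃ _ : i ∈ S, x ∈ F i :=
  ⟨fun ⟨i, h, k⟩ => ⟨i, h, k⟩, fun ⟨i, h, k⟩ => ⟨i, h, k⟩⟩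

@[simp] theorem mem_sUnion {S : PS (PS X)} : x ∈ sU S ↔ ∃ A, A ∈ S ∧ x ∈ A := Iff.rfl

@[simp] theorem mem_sInter {S : PS (PS X)} : x ∈ sI S ↔ ∀ A, A ∈ S → x ∈ A := Iff.rfl

@[simp] theorem mem_powerset_iff (A B : PS X) : A ∈ powerset B ↔ A ⊆ B := Iff.rfl

@[simp] theorem empty_subset (A : PS X) : ∅ ⊆ A := fun _ h => h.elim

@[simp] theorem subset_univ (A : PS X) : A ⊆ univ := fun _ _ => trivial

theorem eq_empty_of_forall_notMem (h : ∀ x, x ∉ A) : A = ∅ :=
  PS.ext fun x => ⟨h x, fun k => k.elim⟩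

theorem eq_univ_of_forall (h : ∀ x, x ∈ A) : A = univ := PS.ext fun x => ⟨fun _ => trivial, fun _ => h x⟩

theorem eq_empty_or_nonempty (A : PS X) : A = ∅ ∨ A.Nonempty :=
  or_iff_not_imp_right.2 fun h => eq_empty_of_forall_notMem fun x hx => h ⟨x, hx⟩

@[simp] theorem not_nonempty_empty : ¬ (∅ : PS X).Nonempty := fun ⟨_, h⟩ => h

theorem nonempty_iff_ne_empty : A.Nonempty ↔ A ≠ ∅ :=
  ⟨fun h e => not_nonempty_empty (e ▸ h), (eq_empty_or_nonempty A).resolve_left⟩

theorem nonempty_compl : Aᶜ.Nonempty ↔ A ≠ univ :=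
  ⟨fun ⟨x, h⟩ e => h (e ▸ mem_univ x), fun h => by
    by_contra k
    exact h (eq_univ_of_forall fun x => not_not.1 fun hx => k ⟨x, hx⟩)⟩

theorem PS.Nonempty.mono (e : A ⊆ B) (h : A.Nonempty) : B.Nonempty := h.imp fun _ k => e k

/-- some element -/
def PS.Nonempty.some (h : A.Nonempty) : X := h.choose

theorem PS.Nonempty.some_mem (h : A.Nonempty) : h.some ∈ A := h.choose_spec

theorem PS.Nonempty.to_subtype (h : A.Nonempty) : _root_.Nonempty A := ⟨⟨_, h.some_mem⟩⟩

theorem PS.Nonempty.image (f : X → Y) [DD f] (h : A.Nonempty) : (image f A).Nonempty :=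
  h.elim fun x hx => ⟨f x, x, hx, rfl⟩

instance : IsEmpty (∅ : PS X) := ⟨fun x => x.2⟩

instance (a : X) : Unique ({a} : PS X) := ⟨⟨⟨a, rfl⟩⟩, fun x => Subtype.ext x.2⟩

theorem inter_subset_left : A ∩ B ⊆ A := fun _ h => h.1

theorem inter_subset_right : A ∩ B ⊆ B := fun _ h => h.2

theorem subset_inter (h : A ⊆ B) (h' : A ⊆ C) : A ⊆ B ∩ C := fun _ k => ⟨h k, h' k⟩

theorem inter_subset_inter (h : A ⊆ B) (h' : C ⊆ D) : A ∩ C ⊆ B ∩ D := fun _ k => ⟨h k.1, h' k.2⟩

theorem inter_eq_right : A ∩ B = B ↔ B ⊆ A :=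
  ⟨fun h _ k => (by rw [← h] at k; exact k.1), fun h => Subset.antisymm inter_subset_right
    (subset_inter h Subset.rfl)⟩

@[simp] theorem inter_empty (A : PS X) : A ∩ ∅ = ∅ := eq_empty_of_forall_notMem fun _ h => h.2

theorem subset_union_left : A ⊆ A ∪ B := fun _ => Or.inl

theorem subset_union_right : B ⊆ A ∪ B := fun _ => Or.inr

theorem union_subset (h : A ⊆ C) (h' : B ⊆ C) : A ∪ B ⊆ C := fun _ k => k.elim (@h _) (@h' _)

@[simp] theorem union_empty (A : PS X) : A ∪ ∅ = A := PS.ext fun _ => by simp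

theorem union_singleton : A ∪ {a} = insert a A := PS.ext fun _ => by simp [or_comm]

theorem union_insert : A ∪ insert a B = insert a (A ∪ B) := PS.ext fun _ => by simp [or_left_comm]

theorem pair_comm (a b : X) : ({a, b} : PS X) = {b, a} := PS.ext fun _ => by simp [or_comm]

theorem mem_insert (a : X) (A : PS X) : a ∈ insert a A := Or.inl rfl

theorem mem_insert_of_mem (b : X) (h : a ∈ A) : a ∈ insert b A := Or.inr h

theorem subset_insert (a : X) (A : PS X) : A ⊆ insert a A := fun _ => Or.inr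

theorem insert_subset (h : a ∈ B) (h' : A ⊆ B) : insert a A ⊆ B :=
  fun _ k => k.elim (fun e => e ▸ h) (@h' _)

theorem insert_nonempty (a : X) (A : PS X) : (insert a A).Nonempty := ⟨a, Or.inl rfl⟩

@[simp] theorem singleton_subset_iff : {a} ⊆ A ↔ a ∈ A :=
  ⟨fun h => h rfl, fun h _ e => (e : _ = a) ▸ h⟩

theorem mem_image_of_mem (f : X → Y) [DD f] (h : x ∈ A) : f x ∈ image f A := ⟨x, h, rfl⟩

theorem image_mono {f : X → Y} [DD f] (h : A ⊆ B) : image f A ⊆ image f B :=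
  fun _ ⟨x, k, e⟩ => ⟨x, h k, e⟩

theorem image_subset_iff {f : X → Y} [DD f] {B : PS Y} : image f A ⊆ B ↔ A ⊆ preimage f B :=
  ⟨fun h x k => h ⟨x, k, rfl⟩, fun h _ ⟨_, k, e⟩ => e ▸ h k⟩

theorem image_image (g : Y → Z) [DD g] (f : X → Y) [DD f] (A : PS X) :
    image g (image f A) = image (fun x => g (f x)) A := PS.ext fun _ => by simp

theorem image_congr {f g : X → Y} [DD f] [DD g] (h : ∀ a ∈ A, f a = g a) : image f A = image g A :=
  PS.ext fun _ => exists_congr fun a => and_congr_right fun k => by rw [h a k]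

theorem preimage_mono {f : X → Y} [DD f] {A B : PS Y} (h : A ⊆ B) :
    preimage f A ⊆ preimage f B := fun _ k => h k

theorem mem_range_self {f : ι → X} [DD f] (i : ι) : f i ∈ range f := ⟨i, rfl⟩

theorem range_subset_iff {f : ι → X} [DD f] : range f ⊆ A ↔ ∀ i, f i ∈ A :=
  ⟨fun h i => h ⟨i, rfl⟩, fun h _ ⟨i, e⟩ => e ▸ h i⟩

theorem forall_mem_range {f : ι → X} [DD f] {p : X → Prop} : (∀ a ∈ range f, p a) ↔ ∀ i, p (f i) :=
  ⟨fun h i => h _ ⟨i, rfl⟩, fun h _ ⟨i, e⟩ => e ▸ h i⟩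

theorem subset_iUnion (F : ι → PS X) [DD F] (i : ι) : F i ⊆ iU F := fun _ h => ⟨i, h⟩

theorem iUnion_subset {F : ι → PS X} [DD F] (h : ∀ i, F i ⊆ A) : iU F ⊆ A := fun _ ⟨i, k⟩ => h i k

theorem iInter_subset (F : ι → PS X) [DD F] (i : ι) : iI F ⊆ F i := fun _ h => h i

theorem subset_iInter {F : ι → PS X} [DD F] (h : ∀ i, A ⊆ F i) : A ⊆ iI F := fun _ k i => h i k

theorem mem_biUnion {S : PS ι} {F : ι → PS X} [DD F] {i : ι} (h : i ∈ S) (k : x ∈ F i) :
    x ∈ bU S F := ⟨i, h, k⟩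

theorem subset_biUnion_of_mem {S : PS ι} {F : ι → PS X} [DD F] {i : ι} (h : i ∈ S) :
    F i ⊆ bU S F := fun _ k => ⟨i, h, k⟩

theorem iUnion₂_subset {S : PS ι} {F : ι → PS X} [DD F] (h : ∀ i ∈ S, F i ⊆ A) : bU S F ⊆ A :=
  fun _ ⟨i, k, k'⟩ => h i k k'

theorem biUnion_eq_iUnion (S : PS ι) (F : ι → PS X) [DD F] : bU S F = iU fun i : S => F i.1 :=
  PS.ext fun _ => ⟨fun ⟨i, h, k⟩ => ⟨⟨i, h⟩, k⟩, fun ⟨i, k⟩ => ⟨i.1, i.2, k⟩⟩

theorem subset_sUnion_of_mem {S : PS (PS X)} (h : A ∈ S) : A ⊆ sU S := fun _ k => ⟨A, h, k⟩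

theorem sUnion_subset {S : PS (PS X)} (h : ∀ B ∈ S, B ⊆ A) : sU S ⊆ A := fun _ ⟨B, k, k'⟩ => h B k k'

@[simp] theorem sInter_empty : sI (∅ : PS (PS X)) = univ := PS.ext fun _ => by simp

@[simp] theorem sInter_singleton (A : PS X) : sI {A} = A := PS.ext fun _ => by simp

theorem sInter_union (S T : PS (PS X)) : sI (S ∪ T) = sI S ∩ sI T :=
  PS.ext fun _ => by simp [or_imp, forall_and]

theorem sInter_range (F : ι → PS X) [DD F] : sI (range F) = iI F := PS.ext fun _ => by simp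

theorem sInter_eq_iInter (S : PS (PS X)) : sI S = iI fun A : S => A.1 := PS.ext fun _ => by simp

end lemmas

end Pool.Agent.P.MP_af1204_lc.Inn
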