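import Pool.Agent.P.MP_0d6be8_lc.Inn.TCore

set_option autoImplicit false
set_option linter.unusedSectionVars false
set_option synthInstance.maxSize 4000

/-! Coded types: finite types, products, options, sums, subtypes, functions, sets. -/

open Pool.Agent.P.MP_5f3b23_lc.Zf

namespace Pool.Agent.P.MP_af1204_lc.Inn

variable [Md]

theorem zext {a b : MM} (h : ∀ x, x ∈ a ↔ x ∈ b) : a = b := ext h

/-! ### finite types -/

/-- numerals -/
noncomputable def num : ℕ → MM := fun n => Nat.rec emp (fun _ a => suc a) n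

theorem num_zero : num 0 = emp := rfl

theorem num_succ (n : ℕ) : num (n + 1) = suc (num n) := rfl

theorem mem_num {n : ℕ} {y : MM} : y ∈ num n ↔ ∃ i < n, num i = y := by
  induction n with
  | zero => exact ⟨fun h => (not_mem_emp _ h).elim, fun ⟨_, h, _⟩ => absurd h (by omega)⟩
  | succ n ih =>
    rw [num_succ, mem_suc, ih]
    constructor
    · rintro (⟨i, h, e⟩ | e)
      exacts [⟨i, by omega, e⟩, ⟨n, by omega, e.symm⟩]
    · rintro ⟨i, h, e⟩
      rcases Nat.lt_succ_iff_lt_or_eq.1 h with h | rfl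
      exacts [Or.inl ⟨i, h, e⟩, Or.inr e.symm]

theorem num_inj {m n : ℕ} (h : num m = num n) : m = n := by
  rcases lt_trichotomy m n with k | k | k
  · exact (not_mem_self (num n) (mem_num.2 ⟨m, k, h⟩)).elim
  · exact k
  · exact (not_mem_self (num m) (mem_num.2 ⟨n, k, h.symm⟩)).elim

theorem num_mem_om (n : ℕ) : num n ∈ (om : MM) := by
  induction n with
  | zero => exact emp_mem_om
  | succ n ih => exact suc_mem_om ih

theorem ex_list {ι : Type} (v : ι → MM) (l : List ι) :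
    ∃ s : MM, ∀ z, z ∈ s ↔ ∃ i ∈ l, v i = z := by
  induction l with
  | nil => exact ⟨emp, fun z => ⟨fun h => (not_mem_emp _ h).elim, by simp⟩⟩
  | cons a l ih =>
    obtain ⟨s, hs⟩ := ih
    exact ⟨ins (v a) s, fun z => by simp [mem_ins, hs, or_comm, eq_comm]⟩

theorem ex_finite {ι : Type} [Finite ι] (v : ι → MM) : ∃ s : MM, ∀ z, z ∈ s ↔ ∃ i, v i = z := by
  have := Fintype.ofFinite ι
  obtain ⟨s, hs⟩ := ex_list v Finset.univ.toList
  exact ⟨s, fun z => by simp [hs]⟩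

noncomputable instance mtFin (n : ℕ) : MT (Fin n) where
  enc i := num i.1
  inj _ _ h := Fin.ext (num_inj h)
  ex := ex_finite _

noncomputable instance mtBool : MT Bool where
  enc b := num b.toNat
  inj a b h := by have := num_inj h; cases a <;> cases b <;> simp_all
  ex := ex_finite _

noncomputable instance mtUnit : MT Unit where
  enc _ := emp
  inj _ _ _ := rfl
  ex := ex_finite _

noncomputable instance mtProp : MT Prop where
  enc p := cnd p (num 1) (num 0)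
  inj a b h := by
    by_cases ha : a <;> by_cases hb : b
    · simp [ha, hb]
    · rw [cnd_pos ha, cnd_neg hb] at h; exact absurd (num_inj h) (by omega)
    · rw [cnd_neg ha, cnd_pos hb] at h; exact absurd (num_inj h) (by omega)
    · simp [ha, hb]
  ex := ex_finite _

section fin
variable {Γ : Type} [MC Γ]

instance (priority := 50) dd_prop (P : Γ → Prop) [h : DP P] : DD P := by
  obtain ⟨Q, _, h1⟩ := h.out
  exact DD.of (fun x => cnd (Q x) (num 1) (num 0)) fun g => by rw [h1]; rfl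

theorem DD.dp {P : Γ → Prop} (h : DD P) : DP P := by
  have : DP fun g => P g = True := inferInstance
  exact this.congr fun g => by simp

/-- case distinction along a finite index -/
theorem DD.cases {I : Type} [MC I] [Finite I] (i : Γ → I) [hi : DD i] {T : I → Γ → Type}
    [∀ j g, MC (T j g)] (f : ∀ j g, T j g) (h : ∀ j, DD (f j)) : DD fun g => f (i g) g := by
  obtain ⟨A, _, hA⟩ := hi.out
  have := Fintype.ofFinite I
  have key : ∀ l : List I, ∃ F : MM → MM, Fn1 F ∧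
      ∀ g, i g ∈ l → F (enc g) = enc (f (i g) g) := by
    intro l
    induction l with
    | nil => exact ⟨fun x => x, mkF _, by simp⟩
    | cons a l ih =>
      obtain ⟨F, _, hF⟩ := ih
      obtain ⟨B, _, hB⟩ := (h a).out
      refine ⟨fun x => cnd (A x = enc a) (B x) (F x), mkF _, fun g hg => ?_⟩
      by_cases e : i g = a
      · exact (cnd_pos (by rw [hA, e])).trans (by rw [hB, e])
      · exact (cnd_neg fun k => e (MC.inj _ _ ((hA g).symm.trans k))).trans
          (hF g ((List.mem_cons.1 hg).resolve_left e))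
  obtain ⟨F, h1, h2⟩ := key Finset.univ.toList
  exact ⟨F, h1, fun g => h2 g (by simp)⟩

theorem DP.cases {I : Type} [MC I] [Finite I] (i : Γ → I) [DD i] (P : I → Γ → Prop)
    (h : ∀ j, DP (P j)) : DP fun g => P (i g) g :=
  (DD.cases i (T := fun _ _ => Prop) P fun j => @dd_prop _ _ _ _ (h j)).dp

theorem UF.cases {I : Type} [MC I] [Finite I] (i : Γ → I) [DD i] (T : I → Γ → Type)
    [∀ j g, MT (T j g)] (h : ∀ j, UF (T j)) : UF fun g => T (i g) g := by
  obtain ⟨F, _, hF⟩ := (DD.cases i (T := fun _ _ => MM) (fun j g => Inn.car (T j g))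
    fun j => @dd_car _ _ _ _ _ (h j)).out
  exact UF.of_car F hF

theorem DD.finite [Finite Γ] {T : Γ → Type} [∀ g, MC (T g)] (f : ∀ g, T g) : DD f :=
  DD.cases (fun g => g) (T := fun j _ => T j) (fun j _ => f j) fun _ => inferInstance

theorem DP.finite [Finite Γ] (P : Γ → Prop) : DP P := (DD.finite P).dp

instance (priority := 4000) dd_fin {n : ℕ} {T : Fin n → Type} [∀ g, MC (T g)] (f : ∀ g, T g) :
    DD f := DD.finite f

instance (priority := 4000) dd_bool {T : Bool → Type} [∀ g, MC (T g)] (f : ∀ g, T g) : DD f :=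
  DD.finite f

instance (priority := 4000) dp_fin {n : ℕ} (P : Fin n → Prop) : DP P := DP.finite P

instance (priority := 4000) dp_bool (P : Bool → Prop) : DP P := DP.finite P

instance uf_fin {k : ℕ} (n : Γ → Fin k) [DD n] : UF fun g => Fin (n g).1 :=
  UF.cases n (fun j _ => Fin j.1) fun _ => inferInstance

end fin

/-! ### products, options, sums -/

noncomputable instance mtProd (X Y : Type) [MT X] [MT Y] : MT (X × Y) where
  enc p := op (enc p.1) (enc p.2)
  inj _ _ h := Prod.ext (MC.inj _ _ (op_inj h).1) (MC.inj _ _ (op_inj h).2)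
  ex := ⟨prd (car X) (car Y), fun y => by
    simp only [mem_prd, mem_car]
    exact ⟨fun ⟨_, _, ⟨a, h⟩, ⟨b, h'⟩, e⟩ => ⟨(a, b), by rw [e, ← h, ← h']⟩,
      fun ⟨p, e⟩ => ⟨_, _, ⟨p.1, rfl⟩, ⟨p.2, rfl⟩, e.symm⟩⟩⟩

theorem car_prod (X Y : Type) [MT X] [MT Y] : car (X × Y) = prd (car X) (car Y) :=
  ext fun y => by
    simp only [mem_prd, mem_car]
    exact ⟨fun ⟨p, e⟩ => ⟨_, _, ⟨p.1, rfl⟩, ⟨p.2, rfl⟩, e.symm⟩,
      fun ⟨_, _, ⟨a, h⟩, ⟨b, h'⟩, e⟩ => ⟨(a, b), by rw [e, ← h, ← h']; rfl⟩⟩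

theorem sing_ne (a : MM) : upair a a ≠ emp := fun h =>
  not_mem_emp a (h ▸ mem_upair.2 (Or.inl rfl))

theorem sUn_sing (a : MM) : sUn (upair a a) = a := ext fun x => by simp [mem_sUn, mem_upair]

theorem opt_car (X : Type) [MT X] (y : MM) : y ∈ ins emp (img (car X) fun a => upair a a) ↔
    ∃ t : Option X, t.elim emp (fun a => upair (enc a) (enc a)) = y := by
  simp only [mem_ins, mem_img, mem_car]
  constructor
  · rintro (⟨_, ⟨a, rfl⟩, rfl⟩ | rfl)
    exacts [⟨some a, rfl⟩, ⟨none, rfl⟩]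
  · rintro ⟨_ | a, rfl⟩
    exacts [Or.inr rfl, Or.inl ⟨_, ⟨a, rfl⟩, rfl⟩]

noncomputable instance mtOption (X : Type) [MT X] : MT (Option X) where
  enc o := o.elim emp fun a => upair (enc a) (enc a)
  inj := by
    rintro (_ | a) (_ | b) h
    · rfl
    · exact (sing_ne _ h.symm).elim
    · exact (sing_ne _ h).elim
    · have := congrArg sUn h
      simp only [Option.elim_some, sUn_sing] at this
      rw [MC.inj _ _ this]
  ex := ⟨_, opt_car X⟩

theorem sum_car (X Y : Type) [MT X] [MT Y] (y : MM) :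
    y ∈ un (img (car X) fun a => op (num 0) a) (img (car Y) fun a => op (num 1) a) ↔
    ∃ t : X ⊕ Y, t.elim (fun a => op (num 0) (enc a)) (fun a => op (num 1) (enc a)) = y := by
  simp only [mem_un, mem_img, mem_car]
  constructor
  · rintro (⟨_, ⟨a, rfl⟩, rfl⟩ | ⟨_, ⟨a, rfl⟩, rfl⟩)
    exacts [⟨.inl a, rfl⟩, ⟨.inr a, rfl⟩]
  · rintro ⟨a | a, rfl⟩
    exacts [Or.inl ⟨_, ⟨a, rfl⟩, rfl⟩, Or.inr ⟨_, ⟨a, rfl⟩, rfl⟩]

noncomputable instance mtSum (X Y : Type) [MT X] [MT Y] : MT (X ⊕ Y) where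
  enc o := o.elim (fun a => op (num 0) (enc a)) fun a => op (num 1) (enc a)
  inj := by
    rintro (a | a) (b | b) h
    · rw [MC.inj _ _ (op_inj h).2]
    · exact absurd (num_inj (op_inj h).1) (by omega)
    · exact absurd (num_inj (op_inj h).1) (by omega)
    · rw [MC.inj _ _ (op_inj h).2]
  ex := ⟨_, sum_car X Y⟩

noncomputable instance mtSub {X : Type} [MT X] (P : X → Prop) [h : DP P] : MT {x // P x} where
  enc x := enc x.1
  inj _ _ h := Subtype.ext (MC.inj _ _ h)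
  ex := by
    obtain ⟨Q, _, hQ⟩ := h.out
    refine ⟨sep (car X) Q, fun y => ?_⟩
    rw [mem_sep, mem_car]
    exact ⟨fun ⟨⟨t, e⟩, k⟩ => ⟨⟨t, (hQ t).1 (e ▸ k)⟩, e⟩,
      fun ⟨t, e⟩ => ⟨⟨t.1, e⟩, e ▸ (hQ t.1).2 t.2⟩⟩

noncomputable instance mtSigma {X : Type} [MT X] (T : X → Type) [∀ x, MT (T x)] [h : UF T] :
    MT (Sigma T) where
  enc p := op (enc p.1) (enc p.2)
  inj := by
    rintro ⟨g, t⟩ ⟨g', t'⟩ h
    obtain ⟨h1, h2⟩ := op_inj h
    obtain rfl : g = g' := MC.inj _ _ h1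
    obtain rfl : t = t' := MC.inj _ _ h2
    rfl
  ex := by
    obtain ⟨F, _, hF⟩ := h.car
    refine ⟨bUn (car X) fun x => img (F x) fun y => op x y, fun z => ?_⟩
    simp only [mem_bUn, mem_img, mem_car]
    constructor
    · rintro ⟨_, ⟨a, rfl⟩, y, hy, rfl⟩
      obtain ⟨b, rfl⟩ := mem_car.1 (hF a ▸ hy)
      exact ⟨⟨a, b⟩, rfl⟩
    · rintro ⟨⟨a, b⟩, rfl⟩
      exact ⟨_, ⟨a, rfl⟩, _, hF a ▸ enc_mem b, rfl⟩

noncomputable instance mtWithBot (X : Type) [MT X] : MT (WithBot X) := mtOption X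

noncomputable instance mtWithTop (X : Type) [MT X] : MT (WithTop X) := mtOption X

noncomputable instance mtLex (X : Type) [h : MT X] : MT (Lex X) := h

/-- the elements of a set of the model -/
def El (a : MM) : Type := {x : MM // x ∈ a}

instance mtEl (a : MM) : MT (El a) where
  enc x := x.1
  inj _ _ h := Subtype.ext h
  ex := ⟨a, fun y => ⟨fun h => ⟨⟨y, h⟩, rfl⟩, fun ⟨t, e⟩ => e ▸ t.2⟩⟩

theorem car_El (a : MM) : car (El a) = a :=
  ext fun y => mem_car.trans ⟨fun ⟨t, e⟩ => e ▸ t.2, fun h => ⟨⟨y, h⟩, rfl⟩⟩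

section rules
variable {Γ : Type} [MC Γ] {X Y Z : Γ → Type} [∀ g, MT (X g)] [∀ g, MT (Y g)] [∀ g, MT (Z g)]

instance uf_El (a : Γ → MM) [h : DD a] : UF fun g => El (a g) := by
  obtain ⟨F, _, hF⟩ := h.out
  exact UF.of_car F fun g => (hF g).trans (car_El _).symm

instance uf_prod [hX : UF X] [hY : UF Y] : UF fun g => X g × Y g := by
  obtain ⟨A, _, hA⟩ := hX.car
  obtain ⟨B, _, hB⟩ := hY.car
  exact UF.of (fun x y => y ∈ prd (A x) (B x)) fun g y => by rw [hA, hB, ← car_prod, mem_car]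

instance uf_option [hX : UF X] : UF fun g => Option (X g) := by
  obtain ⟨A, _, hA⟩ := hX.car
  exact UF.of (fun x y => y ∈ ins emp (img (A x) fun a => upair a a)) fun g y => by
    rw [hA]; exact opt_car _ y

instance uf_sum [hX : UF X] [hY : UF Y] : UF fun g => X g ⊕ Y g := by
  obtain ⟨A, _, hA⟩ := hX.car
  obtain ⟨B, _, hB⟩ := hY.car
  exact UF.of (fun x y => y ∈ un (img (A x) fun a => op (num 0) a)
    (img (B x) fun a => op (num 1) a)) fun g y => by rw [hA, hB]; exact sum_car _ _ y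

instance uf_withBot [UF X] : UF fun g => WithBot (X g) := uf_option

instance uf_withTop [UF X] : UF fun g => WithTop (X g) := uf_option

instance uf_lex [h : UF X] : UF fun g => Lex (X g) := h

instance uf_sub [hX : UF X] (P : ∀ g, X g → Prop) {hP : ∀ g, DP (P g)}
    [h : DP fun p : Cx X => P p.1 p.2] : UF fun g => {x : X g // P g x} := by
  obtain ⟨R, _, hR⟩ := hX.out
  obtain ⟨Q, _, hQ⟩ := h.out
  refine UF.of (fun x y => R x y ∧ Q (op x y)) fun g y => ⟨fun ⟨k1, k2⟩ => ?_, ?_⟩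
  · obtain ⟨t, rfl⟩ := (hR _ _).1 k1
    exact ⟨⟨t, (hQ ⟨g, t⟩).1 k2⟩, rfl⟩
  · rintro ⟨t, rfl⟩
    exact ⟨(hR _ _).2 ⟨t.1, rfl⟩, (hQ ⟨g, t.1⟩).2 t.2⟩

instance uf_sigma [hX : UF X] (T : ∀ g, X g → Type) [∀ g x, MT (T g x)] {hT : ∀ g, UF (T g)}
    [h : UF fun p : Cx X => T p.1 p.2] : UF fun g => Sigma (T g) := by
  obtain ⟨R, _, hR⟩ := hX.out
  obtain ⟨Q, _, hQ⟩ := h.out
  refine UF.of (fun x y => ∃ a b, R x a ∧ Q (op x a) b ∧ y = op a b) fun g y => ⟨?_, ?_⟩
  · rintro ⟨a, b, k1, k2, rfl⟩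
    obtain ⟨t, rfl⟩ := (hR _ _).1 k1
    obtain ⟨u, rfl⟩ := (hQ ⟨g, t⟩ _).1 k2
    exact ⟨⟨t, u⟩, rfl⟩
  · rintro ⟨⟨t, u⟩, rfl⟩
    exact ⟨_, _, (hR _ _).2 ⟨t, rfl⟩, (hQ ⟨g, t⟩ _).2 ⟨u, rfl⟩, rfl⟩

instance dd_sigmk (T : ∀ g, X g → Type) [∀ g x, MT (T g x)] [hT : ∀ g, UF (T g)] (a : ∀ g, X g)
    (b : ∀ g, T g (a g)) {j : ∀ g, MC (Sigma (T g))} [ha : DD a] [hb : DD b]
    [e : Same (fun g => (mtSigma (T g)).toMC) j] :
    @DD _ Γ _ _ j fun g => Sigma.mk (β := T g) (a g) (b g) := by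
  obtain rfl := e.eq
  obtain ⟨A, _, h1⟩ := ha.out
  obtain ⟨B, _, h2⟩ := hb.out
  exact DD.of (fun x => op (A x) (B x)) fun g => by rw [h1, h2]; rfl

instance dd_sigfst (T : ∀ g, X g → Type) [∀ g x, MT (T g x)] [∀ g, UF (T g)]
    (t : ∀ g, Sigma (T g)) [h : DD t] : DD fun g => (t g).1 := by
  obtain ⟨F, _, h1⟩ := h.out
  exact DD.of (fun x => fst (F x)) fun g => by rw [h1]; exact fst_op _ _

instance dd_sigsnd (T : ∀ g, X g → Type) [∀ g x, MT (T g x)] [∀ g, UF (T g)]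
    (t : ∀ g, Sigma (T g)) [h : DD t] : DD fun g => (t g).2 := by
  obtain ⟨F, _, h1⟩ := h.out
  exact DD.of (fun x => snd (F x)) fun g => by rw [h1]; exact snd_op _ _

instance dd_submk (P : ∀ g, X g → Prop) [hP : ∀ g, DP (P g)] (a : ∀ g, X g) (b : ∀ g, P g (a g))
    {j : ∀ g, MC {x // P g x}} [h : DD a] [e : Same (fun g => (mtSub (P g)).toMC) j] :
    @DD _ Γ _ _ j fun g => Subtype.mk (p := P g) (a g) (b g) := by
  obtain rfl := e.eq
  exact h.of_enc fun _ => rfl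

instance dd_subval (P : ∀ g, X g → Prop) [∀ g, DP (P g)] (t : ∀ g, {x // P g x}) [h : DD t] :
    DD fun g => (t g).1 := h.of_enc fun _ => rfl

instance dd_none : DD fun g => (none : Option (X g)) := DD.of (fun _ => emp) fun _ => rfl

instance dd_some (a : ∀ g, X g) [h : DD a] : DD fun g => some (a g) := by
  obtain ⟨A, _, h1⟩ := h.out
  exact DD.of (fun x => upair (A x) (A x)) fun g => by rw [h1]; rfl

instance dd_elim {T : Γ → Type} [∀ g, MC (T g)] (o : ∀ g, Option (X g)) (a : ∀ g, T g)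
    (f : ∀ g, X g → T g) [ho : DD o] [ha : DD a] [hf : DD fun p : Cx X => f p.1 p.2] :
    DD fun g => (o g).elim (a g) (f g) := by
  obtain ⟨O, _, h0⟩ := ho.out
  obtain ⟨A, _, h1⟩ := ha.out
  obtain ⟨F, _, h2⟩ := hf.out
  refine DD.of (fun x => cnd (O x = emp) (A x) (F (op x (sUn (O x))))) fun g => ?_
  rw [h0]
  rcases o g with _ | v
  · exact (cnd_pos rfl).trans (h1 g)
  · exact (cnd_neg (sing_ne _)).trans ((congrArg (fun y => F (op _ y)) (sUn_sing _)).trans
      (h2 ⟨g, v⟩))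

instance dd_bind (o : ∀ g, Option (X g)) (f : ∀ g, X g → Option (Y g)) [DD o]
    [DD fun p : Cx X => f p.1 p.2] : DD fun g => (o g).bind (f g) :=
  (dd_elim o (fun _ => none) f).congr fun g => by cases o g <;> rfl

instance dd_omap (o : ∀ g, Option (X g)) (f : ∀ g, X g → Y g) [DD o]
    [DD fun p : Cx X => f p.1 p.2] : DD fun g => (o g).map (f g) :=
  (dd_elim o (fun _ => none) fun g x => some (f g x)).congr fun g => by cases o g <;> rfl

instance dd_getD (o : ∀ g, Option (X g)) (a : ∀ g, X g) [DD o] [DD a] :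
    DD fun g => (o g).getD (a g) :=
  (dd_elim o a fun _ x => x).congr fun g => by cases o g <;> rfl

instance dd_or (o o' : ∀ g, Option (X g)) [DD o] [DD o'] : DD fun g => (o g).or (o' g) :=
  (dd_elim o o' fun _ x => some x).congr fun g => by cases o g <;> rfl

instance dd_inl (a : ∀ g, X g) [h : DD a] : DD fun g => (Sum.inl (a g) : X g ⊕ Y g) := by
  obtain ⟨A, _, h1⟩ := h.out
  exact DD.of (fun x => op (num 0) (A x)) fun g => by rw [h1]; rfl

instance dd_inr (a : ∀ g, Y g) [h : DD a] : DD fun g => (Sum.inr (a g) : X g ⊕ Y g) := by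
  obtain ⟨A, _, h1⟩ := h.out
  exact DD.of (fun x => op (num 1) (A x)) fun g => by rw [h1]; rfl

instance dd_sumElim {T : Γ → Type} [∀ g, MC (T g)] (f : ∀ g, X g → T g) (f' : ∀ g, Y g → T g)
    (o : ∀ g, X g ⊕ Y g) [ho : DD o] [hf : DD fun p : Cx X => f p.1 p.2]
    [hf' : DD fun p : Cx Y => f' p.1 p.2] : DD fun g => Sum.elim (f g) (f' g) (o g) := by
  obtain ⟨O, _, h0⟩ := ho.out
  obtain ⟨A, _, h1⟩ := hf.out
  obtain ⟨B, _, h2⟩ := hf'.out
  refine DD.of (fun x => cnd (fst (O x) = num 0) (A (op x (snd (O x)))) (B (op x (snd (O x)))))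
    fun g => ?_
  rw [h0]
  rcases o g with v | v
  · exact (cnd_pos (fst_op _ _)).trans ((congrArg (fun y => A (op _ y)) (snd_op _ _)).trans
      (h1 ⟨g, v⟩))
  · exact (cnd_neg fun k => absurd (num_inj ((fst_op _ _).symm.trans k)) (by omega)).trans
      ((congrArg (fun y => B (op _ y)) (snd_op _ _)).trans (h2 ⟨g, v⟩))

instance dd_toLex (a : ∀ g, X g) [h : DD a] : DD fun g => toLex (a g) := h

instance dd_ofLex (a : ∀ g, Lex (X g)) [h : DD a] : DD fun g => ofLex (a g) := h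

instance dd_bot : DD fun g => (⊥ : WithBot (X g)) := dd_none

instance dd_top : DD fun g => (⊤ : WithTop (X g)) := dd_none

instance dd_wbsome (a : ∀ g, X g) [DD a] : DD fun g => WithBot.some (a g) := dd_some a

instance dd_wtsome (a : ∀ g, X g) [DD a] : DD fun g => WithTop.some (a g) := dd_some a

instance dd_pair (a : ∀ g, X g) (b : ∀ g, Y g) [ha : DD a] [hb : DD b] :
    DD fun g => (a g, b g) := by
  obtain ⟨A, _, h1⟩ := ha.out
  obtain ⟨B, _, h2⟩ := hb.out
  exact DD.of (fun x => op (A x) (B x)) fun g => by rw [h1, h2]; rfl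

instance (priority := 1900) dd_fst (t : ∀ g, X g × Y g) [h : DD t] : DD fun g => (t g).1 := by
  obtain ⟨F, _, h1⟩ := h.out
  exact DD.of (fun x => fst (F x)) fun g => by rw [h1]; exact fst_op _ _

instance (priority := 1900) dd_snd (t : ∀ g, X g × Y g) [h : DD t] : DD fun g => (t g).2 := by
  obtain ⟨F, _, h1⟩ := h.out
  exact DD.of (fun x => snd (F x)) fun g => by rw [h1]; exact snd_op _ _

instance dd_vecCons {n : ℕ} {T : Γ → Type} [∀ g, MC (T g)] (a : ∀ g, T g) (v : ∀ g, Fin n → T g)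
    (i : Γ → Fin (n + 1)) [DD i] [ha : DD a] [h : ∀ j, DD fun g => v g j] :
    DD fun g => Matrix.vecCons (a g) (v g) (i g) :=
  DD.cases i (T := fun _ g => T g) (fun j g => Matrix.vecCons (a g) (v g) j) fun j => by
    refine Fin.cases ?_ (fun j => ?_) j
    · exact ha
    · exact h j

instance dd_vecEmpty {T : Γ → Type} [∀ g, MC (T g)] (i : Fin 0) :
    DD fun g => (Matrix.vecEmpty i : T g) := i.elim0

end rules

/-! ### functions and sets -/

/-- functions of the model -/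
structure Fn (X Y : Type) [MT X] [MT Y] : Type where
  /-- the function -/
  toFun : X → Y
  dd : DD toFun

/-- sets of the model -/
structure PS (X : Type) [MT X] : Type where
  /-- the set -/
  carrier : X → Prop
  dp : DP carrier

section fn
variable {X Y : Type} [MT X] [MT Y]

instance : CoeFun (Fn X Y) fun _ => X → Y := ⟨Fn.toFun⟩

instance : Membership X (PS X) := ⟨PS.carrier⟩

@[ext] theorem Fn.ext {f g : Fn X Y} (h : ∀ x, f x = g x) : f = g := by
  cases f; cases g; congr; exact funext h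

@[ext] theorem PS.ext {A B : PS X} (h : ∀ x, x ∈ A ↔ x ∈ B) : A = B := by
  cases A; cases B; congr; exact funext fun x => propext (h x)

/-- a definable map as a function of the model -/
def lm (F : X → Y) [h : DD F] : Fn X Y := ⟨F, h⟩

/-- a definable predicate as a set of the model -/
def sb (P : X → Prop) [h : DP P] : PS X := ⟨P, h⟩

@[simp] theorem lm_apply (F : X → Y) [DD F] (x : X) : lm F x = F x := rfl

@[simp] theorem mem_sb {P : X → Prop} [DP P] {x : X} : x ∈ sb P ↔ P x := Iff.rfl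

theorem Fn.ex (f : Fn X Y) : ∃ a : MM, ∀ p, p ∈ a ↔ ∃ x, op (enc x) (enc (f x)) = p := by
  obtain ⟨F, _, hF⟩ := f.dd.out
  refine ⟨lam (car X) F, fun p => mem_lam.trans ⟨?_, ?_⟩⟩
  · rintro ⟨_, h, rfl⟩
    obtain ⟨x, rfl⟩ := mem_car.1 h
    exact ⟨x, by rw [hF]⟩
  · rintro ⟨x, rfl⟩
    exact ⟨_, enc_mem x, by rw [hF]⟩

/-- the code of a function -/
noncomputable def Fn.code (f : Fn X Y) : MM := f.ex.choose

theorem Fn.mem_code {f : Fn X Y} {p : MM} : p ∈ f.code ↔ ∃ x, op (enc x) (enc (f x)) = p :=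
  f.ex.choose_spec p

theorem Fn.ap_code (f : Fn X Y) (x : X) : ap f.code (enc x) = enc (f x) :=
  ap_eq (Fn.mem_code.2 ⟨x, rfl⟩) fun y hy => by
    obtain ⟨x', e⟩ := Fn.mem_code.1 hy
    obtain ⟨e1, rfl⟩ := op_inj e
    rw [MC.inj _ _ e1]

theorem Fn.code_eq (f : Fn X Y) {F : MM → MM} [Tm fun v => F (v 0)]
    (h : ∀ x, F (enc x) = enc (f x)) : lam (car X) F = f.code := by
  refine zext fun p => mem_lam.trans (Iff.trans ⟨?_, ?_⟩ Fn.mem_code.symm)
  · rintro ⟨_, k, rfl⟩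
    obtain ⟨x, rfl⟩ := mem_car.1 k
    exact ⟨x, by rw [h]⟩
  · rintro ⟨x, rfl⟩
    exact ⟨_, enc_mem x, by rw [h]⟩

theorem fn_car (y : MM) : y ∈ funs (car X) (car Y) ↔ ∃ f : Fn X Y, f.code = y := by
  constructor
  · intro h
    obtain ⟨h1, h2, h3⟩ := mem_funs.1 h
    choose F hF using fun x : X => mem_car.1 (h3 _ (enc_mem x))
    refine ⟨⟨F, DD.of (fun x => ap y x) fun x => (hF x).symm⟩, ?_⟩
    rw [← Fn.code_eq (F := fun x => ap y x) _ fun x => (hF x).symm]
    exact isF_lam.ext h1 (dom_lam.trans h2.symm) fun x hx =>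
      ap_lam (by rwa [dom_lam] at hx)
  · rintro ⟨f, rfl⟩
    obtain ⟨F, _, hF⟩ := f.dd.out
    rw [← f.code_eq hF]
    refine lam_mem_funs fun x hx => ?_
    obtain ⟨x, rfl⟩ := mem_car.1 hx
    rw [hF]; exact enc_mem _

noncomputable instance mtFn : MT (Fn X Y) where
  enc := Fn.code
  inj f g h := Fn.ext fun x => MC.inj _ _ (by rw [← f.ap_code, ← g.ap_code, h])
  ex := ⟨_, fn_car⟩

theorem PS.ex (A : PS X) : ∃ a : MM, ∀ y, y ∈ a ↔ ∃ x, x ∈ A ∧ enc x = y := by
  obtain ⟨Q, _, hQ⟩ := A.dp.out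
  refine ⟨sep (car X) Q, fun y => ?_⟩
  rw [mem_sep, mem_car]
  exact ⟨fun ⟨⟨t, e⟩, k⟩ => ⟨t, (hQ t).1 (e ▸ k), e⟩, fun ⟨t, k, e⟩ => ⟨⟨t, e⟩, e ▸ (hQ t).2 k⟩⟩

/-- the code of a set -/
noncomputable def PS.code (A : PS X) : MM := A.ex.choose

theorem PS.mem_code {A : PS X} {y : MM} : y ∈ A.code ↔ ∃ x, x ∈ A ∧ enc x = y :=
  A.ex.choose_spec y

theorem PS.enc_mem_code {A : PS X} {x : X} : enc x ∈ A.code ↔ x ∈ A :=
  PS.mem_code.trans ⟨fun ⟨_, h, e⟩ => MC.inj _ _ e ▸ h, fun h => ⟨x, h, rfl⟩⟩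

theorem ps_car (y : MM) : y ∈ pow (car X) ↔ ∃ A : PS X, A.code = y := by
  rw [mem_pow]
  constructor
  · intro h
    refine ⟨⟨fun x => enc x ∈ y, inferInstance⟩, zext fun z => PS.mem_code.trans
      ⟨fun ⟨_, k, e⟩ => e ▸ k, fun k => ?_⟩⟩
    obtain ⟨x, rfl⟩ := mem_car.1 (h z k)
    exact ⟨x, k, rfl⟩
  · rintro ⟨A, rfl⟩ z hz
    obtain ⟨x, -, rfl⟩ := PS.mem_code.1 hz
    exact enc_mem x

noncomputable instance mtPS : MT (PS X) where
  enc := PS.code
  inj A B h := PS.ext fun x => by rw [← PS.enc_mem_code, ← PS.enc_mem_code, h]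
  ex := ⟨_, ps_car⟩

instance (priority := 3500) dd_fn (f : Fn X Y) : DD f.toFun := f.dd

end fn

section rules
variable {Γ : Type} [MC Γ] {X Y : Γ → Type} [∀ g, MT (X g)] [∀ g, MT (Y g)]

instance uf_fn [hX : UF X] [hY : UF Y] : UF fun g => Fn (X g) (Y g) := by
  obtain ⟨A, _, hA⟩ := hX.car
  obtain ⟨B, _, hB⟩ := hY.car
  exact UF.of (fun x y => y ∈ funs (A x) (B x)) fun g y => by rw [hA, hB]; exact fn_car y

instance uf_ps [hX : UF X] : UF fun g => PS (X g) := by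
  obtain ⟨A, _, hA⟩ := hX.car
  exact UF.of (fun x y => y ∈ pow (A x)) fun g y => by rw [hA]; exact ps_car y

instance dd_lm [hX : UF X] (F : ∀ g, X g → Y g) {h : ∀ g, DD (F g)}
    [hF : DD fun p : Cx X => F p.1 p.2] : DD fun g => lm (F g) := by
  obtain ⟨A, _, hA⟩ := hX.car
  obtain ⟨B, _, hB⟩ := hF.out
  refine DD.of (fun x => lam (A x) fun y => B (op x y)) fun g => ?_
  rw [hA]
  exact Fn.code_eq _ fun x => hB ⟨g, x⟩

instance dd_sb [hX : UF X] (P : ∀ g, X g → Prop) {h : ∀ g, DP (P g)}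
    [hP : DP fun p : Cx X => P p.1 p.2] : DD fun g => sb (P g) := by
  obtain ⟨A, _, hA⟩ := hX.car
  obtain ⟨B, _, hB⟩ := hP.out
  refine DD.of (fun x => sep (A x) fun y => B (op x y)) fun g => ext fun y => ?_
  rw [hA, mem_sep, mem_car]
  exact Iff.trans ⟨fun ⟨⟨t, e⟩, k⟩ => ⟨t, (hB ⟨g, t⟩).1 (by subst e; exact k), e⟩,
    fun ⟨t, k, e⟩ => ⟨⟨t, e⟩, e ▸ (hB ⟨g, t⟩).2 k⟩⟩ PS.mem_code.symm

instance (priority := 1800) dd_app (f : ∀ g, Fn (X g) (Y g)) (a : ∀ g, X g) [hf : DD f]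
    [ha : DD a] : DD fun g => f g (a g) := by
  obtain ⟨F, _, h1⟩ := hf.out
  obtain ⟨A, _, h2⟩ := ha.out
  exact DD.of (fun x => ap (F x) (A x)) fun g => by rw [h1, h2]; exact Fn.ap_code _ _

instance (priority := 1800) dp_app (f : ∀ g, Fn (X g) Prop) (a : ∀ g, X g) [DD f] [DD a] :
    DP fun g => f g (a g) := (dd_app f a).dp

instance (priority := 1800) dp_mem (A : ∀ g, PS (X g)) (a : ∀ g, X g) [hA : DD A] [ha : DD a] :
    DP fun g => a g ∈ A g := by
  obtain ⟨F, _, h1⟩ := hA.out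
  obtain ⟨B, _, h2⟩ := ha.out
  exact DP.of (fun x => B x ∈ F x) fun g => by rw [h1, h2]; exact PS.enc_mem_code

instance dp_nmem (A : ∀ g, PS (X g)) (a : ∀ g, X g) [DD A] [DD a] : DP fun g => a g ∉ A g :=
  dp_not _

end rules

/-! ### variables for maps and predicates -/

section vars
variable {Γ : Type} [MC Γ] {A B C D E : Type} [MC A] [MC B] [MC C] [MC D] [MC E]

/-- definable map of two arguments -/
class DD2 {B : A → Type} [∀ a, MC (B a)] {T : ∀ a, B a → Type} [∀ a b, MC (T a b)]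
    (F : ∀ a b, T a b) : Prop where
  out : DD fun p : Cx B => F p.1 p.2

/-- definable map of three arguments -/
class DD3 {T : Type} [MC T] (F : A → B → C → T) : Prop where
  out : DD fun p : Cx fun _ : (Cx fun _ : A => B) => C => F p.1.1 p.1.2 p.2

/-- definable predicate of two arguments -/
class DP2 {B : A → Type} [∀ a, MC (B a)] (F : ∀ a, B a → Prop) : Prop where
  out : DP fun p : Cx B => F p.1 p.2

/-- definable predicate of three arguments -/
class DP3 (F : A → B → C → Prop) : Prop where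
  out : DP fun p : Cx fun _ : (Cx fun _ : A => B) => C => F p.1.1 p.1.2 p.2

/-- definable predicate of four arguments -/
class DP4 (F : A → B → C → D → Prop) : Prop where
  out : DP fun p : Cx fun _ : (Cx fun _ : (Cx fun _ : A => B) => C) => D =>
    F p.1.1.1 p.1.1.2 p.1.2 p.2

instance dd2_of {B : A → Type} [∀ a, MC (B a)] {T : ∀ a, B a → Type} [∀ a b, MC (T a b)]
    (F : ∀ a b, T a b) [h : DD fun p : Cx B => F p.1 p.2] : DD2 F := ⟨h⟩

instance dd3_of {T : Type} [MC T] (F : A → B → C → T)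
    [h : DD fun p : Cx fun _ : (Cx fun _ : A => B) => C => F p.1.1 p.1.2 p.2] : DD3 F := ⟨h⟩

instance dp2_of {B : A → Type} [∀ a, MC (B a)] (F : ∀ a, B a → Prop)
    [h : DP fun p : Cx B => F p.1 p.2] : DP2 F := ⟨h⟩

instance dp3_of (F : A → B → C → Prop)
    [h : DP fun p : Cx fun _ : (Cx fun _ : A => B) => C => F p.1.1 p.1.2 p.2] : DP3 F := ⟨h⟩

instance dp4_of (F : A → B → C → D → Prop)
    [h : DP fun p : Cx fun _ : (Cx fun _ : (Cx fun _ : A => B) => C) => D =>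
      F p.1.1.1 p.1.1.2 p.1.2 p.2] : DP4 F := ⟨h⟩

instance (priority := 13) dd_v2 {B : A → Type} [∀ a, MC (B a)] {T : ∀ a, B a → Type}
    [i : ∀ a b, MC (T a b)] (F : ∀ a b, T a b) (a : Γ → A) (b : ∀ g, B (a g))
    {j : ∀ g, MC (T (a g) (b g))} [h : DD2 F] [DD a] [DD b]
    [e : Same (fun g => i (a g) (b g)) j] :
    @DD _ Γ _ (fun g => T (a g) (b g)) (dly j) fun g => F (a g) (b g) :=
  e.eq ▸ h.out.comp fun g => ⟨a g, b g⟩

instance (priority := 13) dd_v2n {T : A → B → Type} [i : ∀ a b, MC (T a b)] (F : ∀ a b, T a b)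
    (a : Γ → A) (b : Γ → B) {j : ∀ g, MC (T (a g) (b g))} [h : DD2 F] [DD a] [DD b]
    [e : Same (fun g => i (a g) (b g)) j] :
    @DD _ Γ _ (fun g => T (a g) (b g)) (dly j) fun g => F (a g) (b g) :=
  e.eq ▸ h.out.comp fun g => ⟨a g, b g⟩

instance (priority := 13) dp_v2n (F : A → B → Prop) (a : Γ → A) (b : Γ → B) [h : DP2 F] [DD a]
    [DD b] : DP fun g => F (a g) (b g) := h.out.comp fun g => ⟨a g, b g⟩

instance (priority := 12) dd_v3 {T : Type} [MC T] (F : A → B → C → T) (a : Γ → A) (b : Γ → B)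
    (c : Γ → C) [h : DD3 F] [DD a] [DD b] [DD c] : DD fun g => F (a g) (b g) (c g) :=
  h.out.comp fun g => ⟨⟨a g, b g⟩, c g⟩

instance (priority := 13) dp_v2 {B : A → Type} [∀ a, MC (B a)] (F : ∀ a, B a → Prop) (a : Γ → A)
    (b : ∀ g, B (a g)) [h : DP2 F] [DD a] [DD b] : DP fun g => F (a g) (b g) :=
  h.out.comp fun g => ⟨a g, b g⟩

instance (priority := 12) dp_v3 (F : A → B → C → Prop) (a : Γ → A) (b : Γ → B) (c : Γ → C)
    [h : DP3 F] [DD a] [DD b] [DD c] : DP fun g => F (a g) (b g) (c g) :=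
  h.out.comp fun g => ⟨⟨a g, b g⟩, c g⟩

instance (priority := 11) dp_v4 (F : A → B → C → D → Prop) (a : Γ → A) (b : Γ → B) (c : Γ → C)
    (d : Γ → D) [h : DP4 F] [DD a] [DD b] [DD c] [DD d] :
    DP fun g => F (a g) (b g) (c g) (d g) := h.out.comp fun g => ⟨⟨⟨a g, b g⟩, c g⟩, d g⟩

end vars

end Pool.Agent.P.MP_af1204_lc.Inn
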